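import Pool.Agent.Helper88.QT.St3
import Pool.Agent.Helper85.QT.St3
import Pool.Agent.Helper86.QA.St4

/-!
# Project QT, helper88, statements 4: the tube theorem at a point, oscillation, COST (end of section 11)

Every module `X` proves `theorem hX (h1 : StA) ... : StX`, the statements listed as hypotheses may be used.  Complete proofs in the docstrings.
`hf t = Re ((1-t)/(1+t))` for `t` in the unit disc, `hf (zt τ) = e^(-τ)`.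
-/

set_option autoImplicit false

open MeasureTheory Matrix Set Topology Filter
open scoped ENNReal ComplexConjugate

namespace Pool.Agent.Helper88.QT

open Pool.Agent.Helper86.QA (KD ActOn FDOn CF ab rX Pt up ga mb ch oo)
open Pool.Agent.Helper85.QT (Ann Cls Cof Mlt Fm th Bnd DTub EBal Crs cen pq gp Tg TT)
open Pool.Agent.Helper68.QC (nq Bel InvB Intw)
open Pool.Agent.Helper35.PM

/-- A holomorphic disc of representations with the data of the tube theorem at all points where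
the modulus is at least `ms` -/
structure TDa {Γ : Type} [Group Γ] (ρ : ℂ → Γ →* SL) (α : Γ) (m ms C3 a0 : ℝ) : Prop where
  hol : HolDisc ρ
  pts : ∀ t ∈ Metric.ball (0 : ℂ) 1, ms ≤ m * ((1 - t) / (1 + t)).re →
    ∃ (r : Γ →* SL) (A B : Set ℂ) (lam : ℂ) (M : ℝ) (G φ μ : ℂ → ℂ) (μ0 : ℂ),
      PtD (rc ρ t) α (m * ((1 - t) / (1 + t)).re) C3 a0 r A B lam M G φ μ μ0

open Classical in
/-- BRG (the crossings counted by helper85 are crossings of the segment; about 150 lines).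

Proof. `lam ≠ 0` (field `re`).  Let `g = q.out`.  `Reg ρ a`, `Reg ρ b` for `g⁻¹`: `pq ρ g a ≠ 0`, `pq ρ g b ≠ 0`, `mb (ρ g⁻¹) a ≠ 0`, `mb (ρ g⁻¹) b ≠ 0`.  Suppose the condition of the `if` holds: `2cz < Tg ρ lam g (gp b a v)` for some `v`, and `v₀ = cen ρ g b a ∈ [-(u+l), -u)`.  TGF (for the pair `b, a`; fourth item with `u := v₀`, `u' := v`): `Tg ρ lam g (gp b a v₀) ≥ Tg ρ lam g (gp b a v) > 2cz`.
`gp b a v₀ = gp a b (-v₀)` (GPM (1)), `-v₀ ∈ [u, u+l]`: so `q ∈ Cr ρ α lam a b u (u+l)` (`Ti` is `Tg` at `q.out`).  The summand is `ofReal (oi ρ α lam m q a b)`: both `om` have the same formula, and it is symmetric (`fd lam x y = fd lam y x` by FDM (1), `|log(|x|/|y|)| = |log(|y|/|x|)|`).  So every term is at most `1_Cr(q) ofReal (oi q)`, `Cr` is finite (INT), `oi ≥ 0` (clear from the formula):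
`∑' ≤ ∑_(q ∈ Cr) ofReal (oi q) = ofReal (∑ oi) = ofReal Om` (`tsum_eq_sum`, `ENNReal.ofReal_sum_of_nonneg`, `finsum_mem_eq_finite_toFinset_sum`).
Hypotheses: hFDM hGPM hINT and Pool.Agent.Helper85.QT.StTGF. -/
def StBRG : Prop := ∀ (Γ : Type) [Group Γ] (ρ : Γ →* SL) (A B : Set ℂ) (α : Γ) (lam : ℂ) (M : ℝ)
  (G : ℂ → ℂ) (m : ℝ) (φ : ℂ → ℂ) (C3 : ℝ), Ann ρ A B α lam M G m φ C3 → ‖lam‖ ≤ 1 / 3200 →
  ∀ (a b : ℂ) (u l : ℝ), Adm ρ A B α lam a b u (u + l) →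
    0 ≤ Om ρ α lam m a b u (u + l) ∧
    ∑' q : Γ ⧸ Subgroup.zpowers α, (if Crs ρ lam cz b a q.out ∧
        cen ρ q.out b a ∈ Ico (-(u + l)) (-(u + l) + l) then
      ENNReal.ofReal (Pool.Agent.Helper85.QT.om lam m (mb (ρ q.out⁻¹) b) (mb (ρ q.out⁻¹) a))
      else 0) ≤ ENNReal.ofReal (Om ρ α lam m a b u (u + l))

/-- MLX (the multiplier; about 120 lines).

Proof. `q_a = g10 a + g11`, `q_b = g10 b + g11`; `g00 a + g01 = a q_a`, `g00 b + g01 = b q_b` (fixed points).  So `(a,1)`, `(b,1)` are eigenvectors and `q_a q_b = 1`: `1 = g00 g11 - g01 g10`, multiply by `a - b`: `g00 (a-b) = a q_a - b q_b`, `g10 (a-b) = q_a - q_b`, `g01 = a q_a - g00 a`, `g11 = q_a - g10 a`; `field_simp`/`linear_combination`.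
GPM (2): `ga g (gp a b v) = gp a b (v + log (|q_a|/|q_b|)) = gp a b (v + 2 log |q_a|)`, equal to `gp a b (v + t)`; GPM (1): `1 = ch x x = cosh (2 log |q_a| - t)` (`ch x x = cosh 0 = 1`), so `t = 2 log |q_a| > 0`.  `L = 2 Complex.log q_a`: `exp L = q_a²`, `Re L = 2 log |q_a|`.
For `ξ ≠ a`, `q = g10 ξ + g11 ≠ 0`: `mb g ξ - b = (ξ-b)/(q q_b)`, `mb g ξ - a = (ξ-a)/(q q_a)` (`mb g ξ - mb g b = (ξ-b)/(q q_b)` as `det g = 1`), quotient `(q_a/q_b) (ξ-b)/(ξ-a) = q_a² (ξ-b)/(ξ-a)`.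
Hypotheses: hGPM. -/
def StMLX : Prop := ∀ (g : SL) (a b : ℂ) (t : ℝ), a ≠ b → g 1 0 * a + g 1 1 ≠ 0 → mb g a = a →
  g 1 0 * b + g 1 1 ≠ 0 → mb g b = b → 1 < ‖g 1 0 * a + g 1 1‖ →
  (∀ v : ℝ, ga g (gp a b v) = gp a b (v + t)) → ∃ L : ℂ, Mlt g b a L ∧ L.re = t ∧ 0 < L.re

/-- SMR (convergence beyond the entropy for a conjugate; the entropy is at least one; about 100 lines).

Proof. (1) St_HS2 (4).  (2) `CC ρ` (structure of Helper20.QD: fields `discrete`, `cocompact`) from `IsQF`, so `∑ hs (ρ γ)^(-s) < ∞` by Helper86's StSUM.  `ρ γ = C⁻¹ (r γ) C`, so `hs (ρ γ) ≤ hs C ^ 2 hs (r γ)` (St_HS1 (1), (2)), `hs (r γ)^(-s) ≤ hs C ^ (2s) hs (ρ γ)^(-s)` (`hs > 0` by St_HS1 (3)).  (3) if `ent ρ < 1` then (2) with `s = 1` contradicts ENL.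
Hypotheses: hHS1 hHS2 hSUM hENL. -/
def StSMR : Prop := ∀ (Γ : Type) [Group Γ] (ρ r : Γ →* SL) (C : SL), IsQF ρ →
  (∀ γ, r γ = C * ρ γ * C⁻¹) →
  (∀ γ, tl (r γ) = tl (ρ γ)) ∧
  (∀ s : ℝ, 0 < s → ent ρ < s → Summable (fun γ : Γ => hs (r γ) ^ (-s))) ∧
  ∀ A B : Set ℂ, KD r A B → 1 ≤ ent ρ

/-- BDX (constants at a point; about 150 lines).

Proof. `m₁ = max 21000 (m₁ of BND)` for BND with `c0 = cz`, `ε = 1/10⁷`, `a₀ = a0`.  ANB: `|lam| m ≤ 2π`, so `|lam| ≤ 2π/21000 ≤ 1/3200`; `m ≤ M ≤ Im τ = 2π Re lam/|lam|²`.  DTub: ZS1 (`cz = 100 ≥ 12`).  EBal: ZS2.  `|μ0| ≤ 1`: `w = i m/2 ∈ Sm m`, Cof.aff: `μ(ff w) conj(ff' w) = μ0 ff' w`, `ff' w ≠ 0` (ANB), so `|μ0| = |μ(ff w)| ≤ 1`.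
`1 ≤ ent`: SMR (3) (fields `cj`, `an.kd`).  If `h = ent (f 0) < 2`: `s = 1 + h/2 ∈ [1,2)`, `h < s`, SMR (2) gives `Summable`; fundamental domains `DA`, `DB` from PD3 for `KD r A B` and for `KD r B A` (the structure is symmetric: exchange the fields, the third alternative of `cpt` likewise); field `ar`; BND: `Bnd A B lam (C_B/(2-s))`, `2 - s = (2-h)/2`; `C = 2 C_B`.
Hypotheses: hPD3 hZS1 hZS2 hANB hBND hSMR (ANB, BND of helper85). -/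
def StBDX : Prop := ∀ a0 : ℝ, 0 ≤ a0 → ∃ C m₁ : ℝ, 1 ≤ C ∧ 1 ≤ m₁ ∧
  ∀ (Γ : Type) [Group Γ] (f : ℂ → Γ →* SL) (α : Γ) (m C3 : ℝ) (r : Γ →* SL) (A B : Set ℂ) (lam : ℂ)
  (M : ℝ) (G φ μ : ℂ → ℂ) (μ0 : ℂ), PtD f α m C3 a0 r A B lam M G φ μ μ0 → m₁ ≤ m → IsQF (f 0) →
    ‖lam‖ ≤ 1 / 3200 ∧ m ≤ 2 * Real.pi * lam.re / ‖lam‖ ^ 2 ∧ DTub r α lam cz ∧ ‖μ0‖ ≤ 1 ∧
    1 ≤ ent (f 0) ∧ (ent (f 0) < 2 → Bnd A B lam (C / (2 - ent (f 0))))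

/-- GRB (the gradient of one length; about 200 lines).

Proof. `C` = constant of TOT for `C3`, `c0 = cz`.  `a ≠ b` (Adm).  MLX: `L`, `Mlt (r γ) b a L`, `Re L = t > 0`.  *InvB (r γ) μ*: let `ξ` with `j = (r γ) 1 0 ξ + (r γ) 1 1 ≠ 0` (all but at most one point).  If `ξ ∈ A`: Cof.inv, multiply by `j² conj(j²)`.  If `ξ ∉ A`: `mb (r γ) ξ ∉ A` (otherwise `ξ = mb (r γ⁻¹) (mb (r γ) ξ) ∈ A`, KD.mpA, CHV (2)), and `μ = 0` off `A` (Cof.sup; the sets `mb (r g) '' EE` are in `A`: ANB, mpA): both sides are `0`.  *Bel 1 μ*: Cof.me, Cof.le.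
FVG (for `r`, `μ`, `γ`, fixed points `b, a`, `l = L`; fields `it`, and `0 < tl (f z γ)`): `Λ` with `Re Λ z = tl (f z γ) = len (f z) (mk γ)` (St_LN), `deriv Λ 0 = π⁻¹ ∫_(Fm b a L) μ th b a`.  TOT with `(a,b,l,u₁) := (b, a, L, -(u+t))` (`g⁻¹γg ≠ α^n` from the hypothesis) and BRG (`L.re = t`): `ofReal |∫| ≤ ofReal (C bb²/m² t) + ofReal C · ofReal Om`, so `|∫| ≤ C bb²/m² t + C Om`; `π⁻¹ ≤ 1`.
Hypotheses: hLN hCHV hANB hMLX hBRG hTOT hFVG (ANB, TOT of helper85). -/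
def StGRB : Prop := ∀ C3 : ℝ, 0 ≤ C3 → ∃ C : ℝ, 1 ≤ C ∧
  ∀ (Γ : Type) [Group Γ] (f : ℂ → Γ →* SL) (α : Γ) (m a0 : ℝ) (r : Γ →* SL) (A B : Set ℂ) (lam : ℂ)
  (M : ℝ) (G φ μ : ℂ → ℂ) (μ0 : ℂ) (bb : ℝ), PtD f α m C3 a0 r A B lam M G φ μ μ0 →
  (∀ γ i j, DifferentiableOn ℂ (fun z : ℂ => (f z γ : Mat) i j) (Metric.ball 0 1)) →
  ‖lam‖ ≤ 1 / 3200 → DTub r α lam cz → ‖μ0‖ ≤ 1 → Bnd A B lam bb → C * bb ≤ m →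
  ∀ (γ : Γ) (a b : ℂ) (u t : ℝ), (∀ z ∈ Metric.ball (0 : ℂ) 1, 0 < tl (f z γ)) →
    (∀ (δ : Γ) (n : ℤ), γ ≠ δ * α ^ n * δ⁻¹) →
    (r γ) 1 0 * a + (r γ) 1 1 ≠ 0 → mb (r γ) a = a →
    (r γ) 1 0 * b + (r γ) 1 1 ≠ 0 → mb (r γ) b = b →
    1 < ‖(r γ) 1 0 * a + (r γ) 1 1‖ → (∀ v : ℝ, ga (r γ) (gp a b v) = gp a b (v + t)) →
    Adm r A B α lam a b u (u + t) →
    GradLE f (ConjClasses.mk γ) (C * bb ^ 2 / m ^ 2 * t + C * Om r α lam m a b u (u + t))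

/-- WGT (weights of the classes; about 250 lines).

Proof. `C` = maximum of the constants of GRB and EXC.  `kd := an.kd`.  SMR: `tl (r γ) = tl (f 0 γ)`, `Summable hs (r γ)^(-σ)`.  Let `x` be a class different from all `mk (α^n)`, `γ = Quotient.out x`: `γ ≠ δα^nδ⁻¹` for all `δ, n` (`ConjClasses.mk_eq_mk_iff_isConj`, `Quotient.out_eq`).  `γ` has infinite order: `γ^k = 1`, `k ≥ 1` gives `γ = 1 = α^0` (kd.tf), excluded.  So `0 < tl (f z γ)` for `z` in the disc (`Facts`, St_HS2 (3)).  AXR: `D` (depending only on the data), `δ, a, b, u`.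
Choose them for all such `x`: `γ' x = δγδ⁻¹` (`mk (γ' x) = x`), `W x = Om r α lam m a b u (u + tl (r γ))`, `W x = 0` for the other `x`.  `tl (f z (γ' x)) = tl (f z γ)`, `γ' x` is not conjugate to a power of `α`.  GRB for `γ' x`, `t = tl (r γ) = tl (f 0 γ) = len (f 0) x` (by definition of `len`); GRB's constant is `≤ C` and `GradLE` is monotone in the last argument (`W x ≥ 0`, `bb ≥ 1`, `len ≥ 0`).
*Sum*: PFM with `K = bb`: a family `ξ : Fin k → ℂ` separated in the sense of PFM is injective (`fd lam x x = 0`), `P = image ξ` satisfies the hypothesis of Bnd (FDM (1), `n` arbitrary), so `k ≤ bb`; get `k ≤ bb`, `ξ` covering.  EXC (`o = oo`): `C k² ≤ C bb² ≤ m (s-σ)³`: `C'`.  For `S` let `P = S.image γ'` (`γ'` is injective on `S` as `mk (γ' x) = x`), `a γ := a (mk γ)` etc.: for `γ = γ' x` we have `mk γ =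 x`.
`ch oo (gp a b u) ≤ D` (AXR), `ch (ga (r γ') oo) (gp a b (u + t)) = ch (ga (r γ') oo) (ga (r γ') (gp a b u)) = ch oo (gp a b u) ≤ D` (CHI (2), GPM (1) for `gp ∈ up`).  So `∑_(x ∈ S) exp (W x/80 - s len x) = ∑_(γ ∈ P) .. ≤ C'`.
Hypotheses: hHS2 hACT hCHI hFDM hGPM hPFM hEXC hAXR hSMR hGRB. -/
def StWGT : Prop := ∀ C3 : ℝ, 0 ≤ C3 → ∃ C : ℝ, 1 ≤ C ∧
  ∀ (Γ : Type) [Group Γ] (f : ℂ → Γ →* SL) (α : Γ) (m a0 : ℝ) (r : Γ →* SL) (A B : Set ℂ) (lam : ℂ)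
  (M : ℝ) (G φ μ : ℂ → ℂ) (μ0 : ℂ) (bb : ℝ), PtD f α m C3 a0 r A B lam M G φ μ μ0 →
  (∀ γ i j, DifferentiableOn ℂ (fun z : ℂ => (f z γ : Mat) i j) (Metric.ball 0 1)) →
  (∀ z ∈ Metric.ball (0 : ℂ) 1, Facts (f z)) → IsQF (f 0) →
  ‖lam‖ ≤ 1 / 3200 → m ≤ 2 * Real.pi * lam.re / ‖lam‖ ^ 2 → DTub r α lam cz → ‖μ0‖ ≤ 1 →
  Bnd A B lam bb → C * bb ≤ m →
  ∀ s σ : ℝ, 1 ≤ σ → σ < s → s ≤ 2 → ent (f 0) < σ → C * bb ^ 2 ≤ m * (s - σ) ^ 3 →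
    ∃ (W : ConjClasses Γ → ℝ) (C2 : ℝ),
      (∀ x : ConjClasses Γ, (∀ n : ℤ, x ≠ ConjClasses.mk (α ^ n)) →
        GradLE f x (C * bb ^ 2 / m ^ 2 * len (f 0) x + C * W x)) ∧
      ∀ S : Finset (ConjClasses Γ), (∀ x ∈ S, ∀ n : ℤ, x ≠ ConjClasses.mk (α ^ n)) →
        ∑ x ∈ S, Real.exp (1 / 80 * W x - s * len (f 0) x) ≤ C2

/-- TTH (the tube theorem at a point; about 200 lines).

Proof. `C_B, m₁` from BDX for `a0`, `C_W` from WGT for `C3`, all `≥ 1`.  `K₁ = (C_W C_B²)^(1/3) ≥ 1`, `ms = max m₁ ((2K₁)^6) ((C_W C_B)^2)`, `C = (1 + 320 C_W) K₁`.  `h = ent (f 0) ≥ 1` (BDX).  Let `m^(-1/10) ≤ 2 - h`; so `h < 2`, `bb = C_B/(2-h) ≤ C_B m^(1/10)`, `Bnd A B lam bb`.  `C_W bb ≤ C_W C_B m^(1/10) ≤ m^(1/2) m^(1/10) ≤ m`.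
`η = K₁ m^(-4/15)`: `m η³ = C_W C_B² m^(1/5) ≥ C_W bb²`; `2η = 2K₁ m^(-1/6) m^(-1/10) ≤ m^(-1/10) ≤ 2 - h`.  `σ = h + η`, `s = h + 2η ≤ 2`, `s - σ = η`.  WGT: `W`, `C2`.  CNT with `E = {x | ∃ n : ℤ, x = mk (α^n)}`, `κ = C_W bb²/m²`, `c = C_W`, `a = 1/80`, `δ = η` (`η ≤ 1/2 < h`), `θ = C m^(-1/4)`:
`κ + c (s - h + 2δ)/a = κ + 320 C_W η` and `κ ≤ η³/m ≤ η`, so it is `≤ (1 + 320 C_W) K₁ m^(-4/15) ≤ θ` (`m ≥ 1`).  `C1` from CYC for `f 0`, `α`: `0 < tl (f 0 α)`: otherwise `α` has finite order (`Facts`), `α = 1` (kd.tf), `r α = 1`, `exp lam = 1` (field `mu`), impossible as `0 < Re lam`.  Finiteness of `classes (f 0) T`: `Facts`.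
Hypotheses: hHS2 hBDX hWGT hCNT hCYC. -/
def StTTH : Prop := ∀ C3 a0 : ℝ, 0 ≤ C3 → 0 ≤ a0 → ∃ ms C : ℝ, 1 ≤ ms ∧ 0 ≤ C ∧
  ∀ (Γ : Type) [Group Γ] (f : ℂ → Γ →* SL) (α : Γ) (m : ℝ) (r : Γ →* SL) (A B : Set ℂ) (lam : ℂ)
  (M : ℝ) (G φ μ : ℂ → ℂ) (μ0 : ℂ), PtD f α m C3 a0 r A B lam M G φ μ μ0 → ms ≤ m →
  (∀ γ i j, DifferentiableOn ℂ (fun z : ℂ => (f z γ : Mat) i j) (Metric.ball 0 1)) →
  (∀ z ∈ Metric.ball (0 : ℂ) 1, Facts (f z)) → IsQF (f 0) →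
  1 ≤ ent (f 0) ∧ (m ^ (-(1 / 10) : ℝ) ≤ 2 - ent (f 0) →
    ∃ δ > 0, ∃ C' : ℝ, ∀ T : ℝ, 1 ≤ T →
      ({c : ConjClasses Γ | c ∈ classes (f 0) T ∧
        ¬ GradLE f c (C * m ^ (-(1 / 4) : ℝ) * T)}.ncard : ℝ) ≤
      C' * Real.exp ((ent (f 0) - δ) * T))

/-- TPR (automorphisms of the disc; about 200 lines).

Proof. (1) `|1 + conj p ζ| ≥ 1 - |p||ζ| > 0`, `1 - |Tp p ζ|² = (1-|p|²)(1-|ζ|²)/|1 + conj p ζ|²`.  (2) `1 + conj t p ≠ 0`; `ω = (1 + t conj p)/(1 + conj t p)`, numerator and denominator are conjugate, so `|ω| = 1`; `Tp t (Tp p ζ) = ((1 + t conj p) ζ + (p + t))/((conj t + conj p) ζ + (1 + conj t p))`; divide by `1 + conj t p`: with `t' = Tp t p`, `conj t' = (conj p + conj t)/(1 + t conj p)`, it is `(ωζ + t')/(1 + conj t' ω ζ)`.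
(3) `Re ((1-w)/(1+w)) = (1-|w|²)/|1+w|²` for `w ≠ -1`; for `w = Tp t p`: `1 + w = (1 + t + p(1 + conj t))/(1 + conj t p)`, so it equals `(1-|t|²)(1-|p|²)/|1+t+p(1+conj t)|² ≥ (1-|t|²)/|1+t|² · (1-|p|²)/(1+|p|)²` (`|1 + conj t| = |1+t|`), and `(1-|p|)/(1+|p|) ≥ (1-tanh 1)/(1+tanh 1) = e^(-2)`.
(4) `zt τ = tanh (τ/2)` is real in `[0,1)`, `(1-tanh x)/(1+tanh x) = e^(-2x)`.  (5) composition of holomorphic functions, `Tp p` maps the disc into itself.  (6) `Real.tanh = sinh/cosh`, `L = log ((1+t)/(1-t))`, `tanh (L/2) = t`. -/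
def StTPR : Prop :=
  (∀ p ∈ Metric.ball (0 : ℂ) 1, (∀ ζ ∈ Metric.ball (0 : ℂ) 1, Tp p ζ ∈ Metric.ball (0 : ℂ) 1) ∧
    Tp p 0 = p ∧ DifferentiableOn ℂ (Tp p) (Metric.ball 0 1)) ∧
  (∀ t ∈ Metric.ball (0 : ℂ) 1, ∀ p ∈ Metric.ball (0 : ℂ) 1, ∃ ω : ℂ, ‖ω‖ = 1 ∧
    ∀ ζ ∈ Metric.ball (0 : ℂ) 1, Tp t (Tp p ζ) = Tp (Tp t p) (ω * ζ)) ∧
  (∀ t ∈ Metric.ball (0 : ℂ) 1, 0 < ((1 - t) / (1 + t)).re ∧ ∀ p : ℂ, ‖p‖ ≤ Real.tanh 1 →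
    p ∈ Metric.ball (0 : ℂ) 1 ∧
    Real.exp (-2) * ((1 - t) / (1 + t)).re ≤ ((1 - Tp t p) / (1 + Tp t p)).re) ∧
  (∀ τ : ℝ, 0 ≤ τ → zt τ ∈ Metric.ball (0 : ℂ) 1 ∧
    ((1 - zt τ) / (1 + zt τ)).re = Real.exp (-τ)) ∧
  (∀ (Γ : Type) [Group Γ] (f : ℂ → Γ →* SL), HolDisc f → ∀ p ∈ Metric.ball (0 : ℂ) 1,
    HolDisc (rc f p)) ∧
  (∀ t : ℝ, 0 ≤ t → t < 1 → ∃ L : ℝ, 0 ≤ L ∧ zt L = (t : ℂ))

/-- OSD (oscillation of the inverse entropy; about 250 lines).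

Proof. `ms₀, C` from TTH for `C3, a0`; `ms = max ms₀ (C^4)`, `C₁ = 35 + 4C`.  Write `mt = m hf t ≥ e² ms`, `ε = (e^(-2) mt)^(-1/10)`, `θ = C (e^(-2) mt)^(-1/4) ≤ 1` (`e^(-2) mt ≥ ms ≥ C^4`).  `f = rc ρ t` is a HolDisc (TPR (5)), `Facts` by St_QF, `u z = 1/ent (f z) ≥ 1/2` (`0 < ent ≤ 2`).  St_PO for `f`: for all `p` in the disc there is `G` with `u z ≤ Re G z`, `Re G p = u p`.
Let `|p| ≤ tanh 1`, `p' = Tp t p`, `m' = m hf p' ≥ e^(-2) mt ≥ ms` (TPR (3); `m > 0` because `mt > 0`, `hf t > 0`).  `TDa.pts p'`: PtD for `rc ρ p'`, a HolDisc; `rc ρ p' 0 = ρ p' = f p` (`Tp p' 0 = p'`).  TTH: `ent (f p) ≥ 1`, so `u p ≤ 1`.  If `2 - ent (f p) < m'^(-1/10)`: `2 u p - 1 = (2 - ent)/ent ≤ m'^(-1/10) ≤ ε`.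
Otherwise TTH gives `δ, C'` and AVG for `rc ρ p'`, `V' = U (rc ρ p' 0)`, `θ' = C m'^(-1/4) ≤ θ`: for `|ζ| ≤ 1/2`, `z = ωζ` (TPR (2)): `u (Tp p ζ) = 1/ent (ρ (Tp t (Tp p ζ))) = 1/ent (ρ (Tp p' (ωζ))) ≤ u p (1 + θ'|ζ| + 8|ζ|²)`.  OSC: `|u ζ - u 0| ≤ 28 ε + 2 θ`, `u 0 = 1/ent (ρ t)`.
`ε = e^(1/5) mt^(-1/10) ≤ (5/4) mt^(-1/10)`, `θ = C e^(1/2) mt^(-1/4) ≤ 2C mt^(-1/10)` (`mt ≥ 1`).
Hypotheses: hQF hPO hTTH hAVG hOSC hTPR. -/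
def StOSD : Prop := ∀ g : ℕ, 2 ≤ g → ∀ C3 a0 : ℝ, 0 ≤ C3 → 0 ≤ a0 → ∃ ms C₁ : ℝ, 1 ≤ ms ∧ 0 ≤ C₁ ∧
  ∀ U : (SurfaceGroup g →* SL) → Ultrafilter ℝ, (∀ ρ, IsQF ρ → Adapted (U ρ) ρ) →
  ∀ (ρ : ℂ → SurfaceGroup g →* SL) (α : SurfaceGroup g) (m : ℝ), TDa ρ α m ms C3 a0 →
    ∀ t ∈ Metric.ball (0 : ℂ) 1, Real.exp 2 * ms ≤ m * ((1 - t) / (1 + t)).re →
    ∀ ζ : ℂ, ‖ζ‖ ≤ Real.tanh 1 →
      |1 / ent (rc ρ t ζ) - 1 / ent (ρ t)| ≤ C₁ * (m * ((1 - t) / (1 + t)).re) ^ (-(1 / 10) : ℝ)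

/-- CSF (the cost of opening; about 100 lines).

Proof. `ms, C₁` from OSD, `K = e²`, `D = 41 √(32 C₁)`.  `t = zt L`, `L ≥ 0` (TPR (6)), `hf t = e^(-L)` (TPR (4)), so `m e^(-L) ≥ e² ms ≥ 1`, `m > 0`, `L ≤ log m`.  For `τ ∈ [0,L]`: `m hf (zt τ) = m e^(-τ) ≥ m e^(-L) ≥ e² ms`, OSD: `|1/ent (rc ρ (zt τ) ζ) - 1/ent (ρ (zt τ))| ≤ C₁ (m e^(-τ))^(-1/10) = C₁ exp (-(log m - τ)/10)`.
CHC for `f = ρ`, `K = log m`: `pressureDist (ρ 0) (ρ (zt L)) ≤ ofReal D`.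
Hypotheses: hCHC hOSD hTPR. -/
def StCSF : Prop := ∀ g : ℕ, 2 ≤ g → ∀ C3 a0 : ℝ, 0 ≤ C3 → 0 ≤ a0 →
  ∃ ms K D : ℝ, 1 ≤ ms ∧ 1 ≤ K ∧ 0 ≤ D ∧
  ∀ U : (SurfaceGroup g →* SL) → Ultrafilter ℝ, (∀ ρ, IsQF ρ → Adapted (U ρ) ρ) →
  ∀ (ρ : ℂ → SurfaceGroup g →* SL) (α : SurfaceGroup g) (m : ℝ), TDa ρ α m ms C3 a0 →
    ∀ t : ℝ, 0 ≤ t → t < 1 → K * ms ≤ m * ((1 - (t : ℂ)) / (1 + (t : ℂ))).re →
      pressureDist U (ρ 0) (ρ (t : ℂ)) ≤ ENNReal.ofReal D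

end Pool.Agent.Helper88.QT
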