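import Pool.Agent.Helper88.QT.All
import Pool.Agent.Helper40.QT.M_BRG
import Pool.Agent.Helper10.QT.M_MLX
import Pool.Agent.Helper27.QT.M_SMR
import Pool.Agent.Helper98.QT.M_BDX
import Pool.Agent.Helper72.QT.M_GRB
import Pool.Agent.Helper42.QT.M_WGT
import Pool.Agent.Helper95.QT.M_TTH
import Pool.Agent.Helper89.QT.M_TPR
import Pool.Agent.Helper60.QT.M_OSD
import Pool.Agent.Helper57.QT.M_CS1
import Pool.Agent.Helper87.QT.M_CSF
import Pool.Agent.Helper20.QP.M_CST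

/-!
# Project QT (MP_d112a4_gt): assembly of section 11 of the tube theorem; the cost statement
-/

set_option autoImplicit false

open Pool.Agent.Helper86.QA Pool.Agent.Helper35.PM

namespace Pool.Agent.Helper88.QT

theorem tCS1 : StCS1 := Pool.Agent.Helper57.QT.hCS1 qf_ po_ ge1_ ge2_ cs_
theorem tCHC : StCHC := Pool.Agent.Helper34.QT.hCHC qf_ tCS1
theorem tBRG : StBRG := Pool.Agent.Helper40.QT.hBRG tFDM tGPM tINT Pool.Agent.Helper85.QT.tTGF
theorem tMLX : StMLX := Pool.Agent.Helper10.QT.hMLX tGPM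
theorem tSMR : StSMR := Pool.Agent.Helper27.QT.hSMR hs1_ hs2_ tSUM tENL
theorem tBDX : StBDX :=
  Pool.Agent.Helper98.QT.hBDX tPD3 tZS1 tZS2 Pool.Agent.Helper85.QT.tANB
    Pool.Agent.Helper85.QT.tBND tSMR
theorem tGRB : StGRB :=
  Pool.Agent.Helper72.QT.hGRB ln_ tCHV Pool.Agent.Helper85.QT.tANB tMLX tBRG
    Pool.Agent.Helper85.QT.tTOT tFVG
theorem tWGT : StWGT :=
  Pool.Agent.Helper42.QT.hWGT hs2_ tACT tCHI tFDM tGPM tPFM tEXC tAXR tSMR tGRB
theorem tTTH : StTTH := Pool.Agent.Helper95.QT.hTTH hs2_ tBDX tWGT tCNT tCYC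
theorem tTPR : StTPR := Pool.Agent.Helper89.QT.hTPR
theorem tOSD : StOSD := Pool.Agent.Helper60.QT.hOSD qf_ po_ tTTH tAVG tOSC tTPR
theorem tCSF : StCSF := Pool.Agent.Helper87.QT.hCSF tCHC tOSD tTPR
theorem tCST : Pool.Agent.Helper20.QP.StCST := Pool.Agent.Helper20.QP.CST_of_CSF tCSF

end Pool.Agent.Helper88.QT
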