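import Pool.Agent.Helper88.QT.St1

/-!
# Project QT, helper88, statements 2: the excursion sum (section 10)

Every module `X` proves `theorem hX (h1 : StA) ... : StX`, the statements listed as hypotheses may be used.  Complete proofs in the docstrings.
`g = ρ γ = [[a,b],[c,d]]` acts by `ga`, `mb`; `d(x,y) = arcosh (ch x y)`; `x_ξ = xp lam (2 cz) ξ` is the point over `ξ` at height `2 cz = 200`.
-/

set_option autoImplicit false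

open MeasureTheory Matrix Set Topology
open scoped ENNReal ComplexConjugate

namespace Pool.Agent.Helper88.QT

open Pool.Agent.Helper86.QA Pool.Agent.Helper85.QT
open Pool.Agent.Helper35.PM (hs tl len classes num ent)

open Classical in
/-- TEL (telescoping; about 60 lines).

Proof. Induction on the cardinality of `S`.  `S = ∅`: `1 = 1`.  Otherwise let `j₀ ∈ S` minimise `s`, `S' = {i ∈ S | s j₀ < s i} = S \ {j₀}` (injectivity of `s` on `S`).  `exp (Σ_S x) = exp (x j₀) exp (Σ_S' x) = (exp (x j₀) - 1) exp (Σ_S' x) + exp (Σ_S' x)`; use the induction hypothesis for `S'`: for `j ∈ S'` the set `{i ∈ S' | s j < s i}` equals `{i ∈ S | s j < s i}`. -/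
def StTEL : Prop := ∀ (ι : Type) (S : Finset ι) (s x : ι → ℝ),
  (∀ i ∈ S, ∀ j ∈ S, s i = s j → i = j) →
  Real.exp (∑ i ∈ S, x i) = 1 + ∑ j ∈ S, (Real.exp (x j) - 1) *
    Real.exp (∑ i ∈ S.filter (fun i => s j < s i), x i)

/-- INV (invariance; about 200 lines).

Proof. `i ↦ δ • i` (left multiplication on the quotient `Γ ⧸ zpowers α`, `MulAction`): `Quotient.out (δ • i) = δ * Quotient.out i * α^n` for some `n` (`QuotientGroup.eq`, `Subgroup.mem_zpowers_iff`).  `ρ (α^n)` is diagonal with quotient `e^{n lam}` (from `dg`, `mu` of `Ann`).  (1) `Ti (δ•i) (ga (ρ δ) x) = TT lam (ga (ρ (α^{-n} (out i)⁻¹ δ⁻¹)) (ga (ρ δ) x)) = TT lam (ga (ρ α^{-n}) (ga (ρ (out i)⁻¹) x)) = Ti i x` (ACT (2), XPT (4)).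
(2) for `a` regular, `oi (δ•i) (mb (ρ δ) a) (mb (ρ δ) b)`: `mb (ρ (α^{-n}(out i)⁻¹δ⁻¹)) (mb (ρ δ) a) = e^{-n lam} mb (ρ (out i)⁻¹) a` (CHV (2); all denominators are nonzero by `Reg`), both points are multiplied by the same number, `fd` (FDM (3)) and the quotient of moduli are unchanged.
(3) `Reg (mb (ρ δ) a)`: `(ρ g) 1 0 (mb (ρ δ) a) + (ρ g) 1 1 = ((ρ (gδ)) 1 0 a + (ρ (gδ)) 1 1)/((ρ δ) 1 0 a + (ρ δ) 1 1)`, same for the upper row.  `LS`: SB3 (2).  (4) GPM (2): `ga (ρ δ) (gp a b w) = gp a' b' (w + κ)`, `κ = log (|j_a|/|j_b|)`.  So `i ∈ Cr a b u u'` iff `δ • i ∈ Cr a' b' (u+κ) (u'+κ)`: bijection of the sets of crossed lifts (`ncard`, `finsum_mem`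
are preserved: `finsum_mem_eq_of_bijOn`).
Hypotheses: hACT hCHV hSB3 hFDM hXPT hGPM. -/
def StINV : Prop := ∀ (Γ : Type) [Group Γ] (ρ : Γ →* SL) (A B : Set ℂ) (α : Γ) (lam : ℂ) (M : ℝ)
  (G : ℂ → ℂ) (m : ℝ) (φ : ℂ → ℂ) (C3 : ℝ), Ann ρ A B α lam M G m φ C3 →
  (∀ n : ℤ, (ρ (α ^ n)) 0 1 = 0 ∧ (ρ (α ^ n)) 1 0 = 0 ∧
    (ρ (α ^ n)) 0 0 / (ρ (α ^ n)) 1 1 = Complex.exp (n * lam)) ∧
  (∀ (δ : Γ) (i : Li α), ∀ x ∈ up, Ti ρ α lam (δ • i) (ga (ρ δ) x) = Ti ρ α lam i x) ∧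
  ∀ (δ : Γ) (a b : ℂ) (u u' : ℝ), Adm ρ A B α lam a b u u' →
    ∃ κ : ℝ, Adm ρ A B α lam (mb (ρ δ) a) (mb (ρ δ) b) (u + κ) (u' + κ) ∧
      (∀ w : ℝ, ga (ρ δ) (gp a b w) = gp (mb (ρ δ) a) (mb (ρ δ) b) (w + κ)) ∧
      (Cr ρ α lam (mb (ρ δ) a) (mb (ρ δ) b) (u + κ) (u' + κ)).ncard = (Cr ρ α lam a b u u').ncard ∧
      (∀ m' : ℝ, Om ρ α lam m' (mb (ρ δ) a) (mb (ρ δ) b) (u + κ) (u' + κ) = Om ρ α lam m' a b u u')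

/-- INT (crossing intervals; about 280 lines).

Proof. For a lift `i` put `g = Quotient.out i`, `a' = mb (ρ g⁻¹) a`, `b'` likewise: nonzero (`Reg` for `g⁻¹`), different (GPM (2)), and `Ti i (gp a b w) = TT lam (gp a' b' (w + κ))`.  If `i ∈ Cr`, GPT (2) with `T = 2 cz` gives `s i`, `t i` (shift by `-κ`).  As `Ti i ≤ 2 cz` at `u` and `u'` and `> 2 cz` at some `v ∈ [u,u']`: `u ≤ s i`, `t i ≤ u'`.
The feet: ENT at `gp a' b' (s i + κ)` (`|lam| · 200 ≤ 1/16`): `fd ≤ 8 · 200`.  *Disjointness*: if `12 ≤ Ti i x`, `12 ≤ Ti j x` for one `x ∈ up` then `i = j`: with `y = ga (ρ (out i)⁻¹) x`, `TT lam y ≥ 12` and `Tg ρ lam ((out i)⁻¹ out j) y = TT lam (ga (ρ (out j)⁻¹) x) ≥ 12`, ZS1, `QuotientGroup.eq`.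
So for `i ≠ j` in `Cr` the open intervals are disjoint, i.e. `t i ≤ s j ∨ t j ≤ s i`; the same for the enlarged intervals `(s i - 1/4, t i + 1/4)` (GPT (2), last part: height `> cz = 100 ≥ 12` there), so `|s i - s j| ≥ 1/2`, and `Cr` is finite: `i ↦ ⌊2 (s i - u)⌋` is injective on `Cr` with values in a finite interval of integers.
*Tail*: let `j ∈ Cr`.  If `Ti i (gp a b (t j)) > 2 cz` then `i ∈ Cr`, `i ≠ j`, and points of `(s j, t j)` close to `t j` are in `(s i, t i)`: contradiction.  So `Adm a b (t j) u'`.  If `i ∈ Cr (t j) u'` then `i ∈ Cr`, `i ≠ j`, `t i > t j`, so not `t i ≤ s j`, so `t j ≤ s i` and `s j < s i`.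
Conversely `s j < s i`, `i ≠ j`: not `t i ≤ s j`, so `t j ≤ s i` and the midpoint of `(s i, t i)` is in `[t j, u']`.
Hypotheses: hACT hCHV hXPT hGPM hGPT hENT hZS1. -/
def StINT : Prop := ∀ (Γ : Type) [Group Γ] (ρ : Γ →* SL) (A B : Set ℂ) (α : Γ) (lam : ℂ) (M : ℝ)
  (G : ℂ → ℂ) (m : ℝ) (φ : ℂ → ℂ) (C3 : ℝ), Ann ρ A B α lam M G m φ C3 → ‖lam‖ ≤ 1 / 3200 →
  (∀ i j : Li α, ∀ x ∈ up, 12 ≤ Ti ρ α lam i x → 12 ≤ Ti ρ α lam j x → i = j) ∧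
  ∀ (a b : ℂ) (u u' : ℝ), Adm ρ A B α lam a b u u' →
    (Cr ρ α lam a b u u').Finite ∧
    ∃ s t : Li α → ℝ,
      (∀ i ∈ Cr ρ α lam a b u u', u ≤ s i ∧ s i < t i ∧ t i ≤ u' ∧
        (∀ w : ℝ, 2 * cz < Ti ρ α lam i (gp a b w) ↔ w ∈ Ioo (s i) (t i)) ∧
        Ti ρ α lam i (gp a b (s i)) = 2 * cz ∧ Ti ρ α lam i (gp a b (t i)) = 2 * cz ∧
        fd lam (rd (ga (ρ (Quotient.out i)⁻¹) (gp a b (s i)))) (mb (ρ (Quotient.out i)⁻¹) b) ≤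
          16 * cz ∧
        fd lam (rd (ga (ρ (Quotient.out i)⁻¹) (gp a b (t i)))) (mb (ρ (Quotient.out i)⁻¹) a) ≤
          16 * cz) ∧
      (∀ i ∈ Cr ρ α lam a b u u', ∀ j ∈ Cr ρ α lam a b u u', i ≠ j → t i ≤ s j ∨ t j ≤ s i) ∧
      (∀ j ∈ Cr ρ α lam a b u u', Adm ρ A B α lam a b (t j) u' ∧
        Cr ρ α lam a b (t j) u' = {i | i ∈ Cr ρ α lam a b u u' ∧ s j < s i})

/-- WCT (counting lattice points; about 150 lines).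

Proof. `τ = 2πi/lam`, `Im τ = 2π Re lam/|lam|² ≥ m`.  `ξ = exp (lam x)`, `η = exp (lam y)`.  FDM (5) at `x` for the point `exp (n lam) η = exp (lam (y+n))`: there is `y_n` with `exp (lam y_n) = exp (lam (y+n))` and `fd = |x - y_n|`; so `y_n = y + n + k_n τ`, `k_n ∈ ℤ` (`Complex.exp_eq_exp_iff_exists_int`).  If `fd ≤ D`: `|Im (x - y) - k_n Im τ| ≤ D`: `k_n` lies in an interval of length
`2D/Im τ ≤ 2D/m`, at most `1 + 2D/m` values; for a given `k`, `|Re (x - y - kτ) - n| ≤ D`: at most `1 + 2D` values of `n`.  So the set of `n` is a subset of a union over `k` of finite sets.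
Hypotheses: hFDM. -/
def StWCT : Prop := ∀ (lam : ℂ) (m : ℝ), 0 < lam.re → 1 ≤ m → m ≤ 2 * Real.pi * lam.re / ‖lam‖ ^ 2 →
  ∀ (ξ η : ℂ), ξ ≠ 0 → η ≠ 0 → ∀ D : ℝ, 0 ≤ D →
    {n : ℤ | fd lam ξ (Complex.exp (n * lam) * η) ≤ D}.Finite ∧
    (({n : ℤ | fd lam ξ (Complex.exp (n * lam) * η) ≤ D}.ncard : ℝ)) ≤ (1 + 2 * D) * (1 + 2 * D / m)

/-- WSM (the sum over the passages; about 280 lines).

Proof. `D_n = fd lam ξ (e^{n lam} η)`, `v_n = log (|ξ|/|e^{n lam}η|) = U - n r`, `r = Re lam ∈ (0, 1/400]`, `T = 2cz = 200`, `|lam| T ≤ 1/2`.  XPT (1): both points are in `up`, at height `T`, with `rd = ξ`, `rd = e^{n lam}η`.  CHF (2): `ch ≥ 1 + D_n²/(8·200²) ≥ (1+D_n)²/(16·200²)`, and if `|v_n| ≥ 1`: `ch ≥ e^{|v_n|}/(8 (200|lam|)²)`.  `ω = om = min(1,q)(1+|v_n|)`, `q = (1+D_n)²/m²`;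
`e^x - 1 ≤ x e^x` and `1 + y ≤ 4e^{y/4}`: `e^{ω/4} - 1 ≤ (1/4) min(1,q)(1+|v|) e^{(1+|v|)/4} ≤ 2 min(1,q) e^{|v|/2}`.
(a) `|v_n| ≤ 1`: term `≤ C min(1,q)(1+D_n)^{-2s}`.  Layers `2^j ≤ 1+D_n < 2^{j+1}`, `j ≥ 0`: by WCT at most `(1+4·2^j)(1+4·2^j/m) ≤ 25·2^j(1+2^j/m)` values of `n`.  If `2^j ≤ m`: at most `50·2^j` terms, each `≤ C (4·4^j/m²) 4^{-js}·.. ≤ C'/m²` (`s ≥ 1`), layer `≤ C' 2^j/m²`, sum over `2^j ≤ m` at most `2C'/m`.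
If `2^j > m`: at most `50·4^j/m` terms `≤ C 4^{-js}`: layer `≤ C 4^{-j(s-1)}/m`, sum `≤ (C/m)/(1-4^{-(s-1)}) ≤ 2C/(m(s-1))` (`1 - 4^{-y} ≥ (3/4) y` for `0 ≤ y ≤ 1`, concavity).
(b) `|v_n| > 1`: term `≤ 2e^{|v|/2} (8·200²|lam|² e^{-|v|})^s ≤ C|lam|² e^{-|v_n|/2}` (`s ≥ 1`, `8·200²|lam|² ≤ 2`... use `(8·200²)^s ≤ C`, `|lam|^{2s} ≤ |lam|²`), and `Σ_n e^{-|U-nr|/2} ≤ 2/(1-e^{-r/2}) ≤ 8/r`.  `|lam|²/r ≤ 2π/m`.  Total `≤ C/m ≤ C/(m(s-1))`.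
Hypotheses: hFDM hXPT hCHF hWCT. -/
def StWSM : Prop := ∃ C : ℝ, 0 < C ∧ ∀ (lam : ℂ) (m : ℝ), 0 < lam.re → ‖lam‖ ≤ 1 / 400 → 1 ≤ m →
  m ≤ 2 * Real.pi * lam.re / ‖lam‖ ^ 2 → ∀ s : ℝ, 1 < s → s ≤ 2 → ∀ (ξ η : ℂ), ξ ≠ 0 → η ≠ 0 →
    ∑' n : ℤ, ENNReal.ofReal ((Real.exp (om lam m ξ (Complex.exp (n * lam) * η) / 4) - 1) *
      ch (xp lam (2 * cz) ξ) (xp lam (2 * cz) (Complex.exp (n * lam) * η)) ^ (-s)) ≤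
      ENNReal.ofReal (C / (m * (s - 1)))

/-- PSF (the series `PS` is finite and invariant; about 80 lines).

Proof. `hs (ρ γ) = tr (ργ ργᴴ) = tr Xm(γ oo) = 2 ch oo (γ oo)` (ACT, CHI (1)).  CHI (3) twice: `ch oo (γoo) ≤ 4 ch oo x · ch x (γy) · ch (γy) (γoo)`, `ch (γy)(γoo) = ch y oo`.  So `ch x (γy)^{-s} ≤ K hs(ρ γ)^{-s}` with `K = (8 ch oo x ch y oo)^s`; `ENNReal.ofReal` of a summable series.
Hypotheses: hACT hCHI. -/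
def StPSF : Prop := ∀ (Γ : Type) [Group Γ] (ρ : Γ →* SL) (s : ℝ), 0 ≤ s →
  Summable (fun γ : Γ => hs (ρ γ) ^ (-s)) → ∀ x ∈ up, ∀ y ∈ up, PS ρ s x y < ∞

/-- PRT (ports near the crossings; about 200 lines).

Proof. Let `i`, `s i`, `t i` be as in INT, `g₀ = Quotient.out i`, `b₀ = mb (ρ g₀⁻¹) b`, `a₀ = mb (ρ g₀⁻¹) a` in `LS \ {0}` (SB3, `Reg`).  Covering: `y, n₀` with `fd lam b₀ (e^{n₀ lam} ξ y) < 1`; put `g₁ = g₀ α^{n₀}`: `b₁ = mb (ρ g₁⁻¹) b = e^{-n₀ lam} b₀` (INV (1), XPT (4), CHV (2)), `fd b₁ (ξ y) < 1` (FDM (3)); `a₁ = mb (ρ g₁⁻¹) a = e^{-n₀lam}a₀ ∈ LS \ {0}` (SB3): `y', n` with `fd a₁ (e^{n lam} ξ y') < 1`.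
`x₁ = ga (ρ g₁⁻¹) (gp a b (s i))` has `TT = 2cz` (= `Ti i`), `rd x₁ = e^{-n₀lam} rd (ga (ρ g₀⁻¹) ..)`, so `fd (rd x₁) (ξ y) ≤ 16cz + 1 = 1601`, `|lam|·1601 ≤ 1`, CHF (3): `ch x₁ (x_{ξ y}) ≤ 1 + (1601/200)² ≤ 66`, i.e. `ch (ga (ρ g₁) x_{ξ y}) (gp a b (s i)) ≤ 66` (CHI (2)).  Same for `t i` and `x_{e^{n lam}ξ y'}`.
Weight: `oi i a b = om lam m a₁ b₁` (invariance under the common factor).  `fd a₁ b₁ ≤ D + 2`, `D = fd (ξ y) (e^{n lam}ξ y')`, `1 + fd ≤ 3(1+D)`; `|log(|a₁|/|b₁|)| ≤ |log (|ξ y|/|e^{n lam} ξ y'|)| + 2|lam| ≤ .. + 1`; so `oi ≤ min(1, 9q) · 2(1+|v|) ≤ 18 om lam m (ξ y) (e^{n lam} ξ y')`, and `oi/80 ≤ om/4`.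
Hypotheses: hACT hCHI hCHV hSB3 hFDM hXPT hCHF hGPM hINV. -/
def StPRT : Prop := ∀ (Γ : Type) [Group Γ] (ρ : Γ →* SL) (A B : Set ℂ) (α : Γ) (lam : ℂ) (M : ℝ)
  (G : ℂ → ℂ) (m : ℝ) (φ : ℂ → ℂ) (C3 : ℝ), Ann ρ A B α lam M G m φ C3 → ‖lam‖ ≤ 1 / 3200 →
  ∀ (k : ℕ) (ξ : Fin k → ℂ), (∀ y, ξ y ∈ LS A B ∧ ξ y ≠ 0) →
  (∀ η ∈ LS A B, η ≠ 0 → ∃ y, ∃ n : ℤ, fd lam η (Complex.exp (n * lam) * ξ y) < 1) →
  ∀ (a b : ℂ) (s t : ℝ) (i : Li α), a ∈ LS A B → b ∈ LS A B → a ≠ b → Reg ρ a → Reg ρ b →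
    Ti ρ α lam i (gp a b s) = 2 * cz → Ti ρ α lam i (gp a b t) = 2 * cz →
    fd lam (rd (ga (ρ (Quotient.out i)⁻¹) (gp a b s))) (mb (ρ (Quotient.out i)⁻¹) b) ≤ 16 * cz →
    fd lam (rd (ga (ρ (Quotient.out i)⁻¹) (gp a b t))) (mb (ρ (Quotient.out i)⁻¹) a) ≤ 16 * cz →
    ∃ (g₁ : Γ) (y y' : Fin k) (n : ℤ), (QuotientGroup.mk g₁ : Li α) = i ∧
      ch (ga (ρ g₁) (xp lam (2 * cz) (ξ y))) (gp a b s) ≤ 66 ∧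
      ch (ga (ρ (g₁ * α ^ n)) (xp lam (2 * cz) (ξ y'))) (gp a b t) ≤ 66 ∧
      ga (ρ (g₁ * α ^ n)) (xp lam (2 * cz) (ξ y')) =
        ga (ρ g₁) (xp lam (2 * cz) (Complex.exp (n * lam) * ξ y')) ∧
      0 ≤ oi ρ α lam m i a b ∧
      oi ρ α lam m i a b / 80 ≤ om lam m (ξ y) (Complex.exp (n * lam) * ξ y') / 4

/-- REC (the recursion; about 280 lines).

Proof. Let `p = ((a,b),(u,u'))` be in the supremum defining `EN .. (N+1) g` (or `N = 0`).  `exp (-s (v'-v)) ≤ cosh (v'-v)^{-s} = ch (gp a b v) (gp a b v')^{-s}` for `v ≤ v'` (`cosh x ≤ e^x`, GPM (1)).  CHI (3): `ch x z ≤ 4 ch x p · ch p q · ch q z`.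
TEL for `S = Cr` (finite, INT), `s i`, `x i = oi i/80` (`Om = Σ oi`; the tail set is `Cr (t j) u'`, so the inner sum is `Om .. (t j) u'/80`): `exp (Om/80 - s(u'-u)) = exp (-s(u'-u)) + Σ_{j ∈ Cr} (exp (oi j/80) - 1) exp(-s (s j - u)) exp (-s (t j - s j)) exp (Om .. (t j) u'/80 - s (u' - t j))`.
First term: `≤ ch (gp u)(gp u')^{-s} ≤ (4R'D)^s ch X (g o)^{-s} ≤ (4R'D)² ch X (g o)^{-s}`; for `N = 0` it is the only one (`Cr = ∅`).  Term `j`: PRT gives `g₁, y, y', n`.  `exp (oi/80) - 1 ≤ exp (om/4) - 1`.  `exp (-s (s j - u)) ≤ ch (gp u)(gp (s j))^{-s} ≤ (4·66 R')² ch X (ga (ρ g₁) x_{ξ y})^{-s}`.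
`exp(-s(t j - s j)) ≤ ch (gp (s j)) (gp (t j))^{-s} ≤ (4·66²)² ch (x_{ξ y}) (x_{e^{n lam}ξ y'})^{-s}` (apply `g₁`, CHI (2)).  The last factor: translate by `δ = (g₁α^n)⁻¹` (INV): an admissible segment with `ncard Cr (t j) u' ≤ N` (it is a proper subset of `Cr`: `j` is missing), starting at `ga (ρ δ) (gp (t j))`, `ch (x_{ξ y'}) (ga (ρ δ) (gp (t j))) ≤ 66`, ending at `ga (ρ δ) (gp u')`,
`ch (ga (ρ (δg)) o) (..) = ch (ga (ρ g) o) (gp u') ≤ D`: so it is at most `EN .. (x_{ξ y'}) 66 o D N (δ g)`.  The map `j ↦ g₁` is injective (`j` is the class of `g₁`), so the sum over `j` is at most the full sum (`ENNReal`, `Finset.sum_le_tsum`-type argument: for every `j` the term `(g₁,y,n,y')` of the sum).  `C = 10^9`.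
Hypotheses: hACT hCHI hGPM hXPT hTEL hINV hINT hPRT. -/
def StREC : Prop := ∃ C : ℝ, 1 ≤ C ∧
  ∀ (Γ : Type) [Group Γ] (ρ : Γ →* SL) (A B : Set ℂ) (α : Γ) (lam : ℂ) (M : ℝ)
  (G : ℂ → ℂ) (m : ℝ) (φ : ℂ → ℂ) (C3 : ℝ), Ann ρ A B α lam M G m φ C3 → ‖lam‖ ≤ 1 / 3200 →
  ∀ (k : ℕ) (ξ : Fin k → ℂ), (∀ y, ξ y ∈ LS A B ∧ ξ y ≠ 0) →
  (∀ η ∈ LS A B, η ≠ 0 → ∃ y, ∃ n : ℤ, fd lam η (Complex.exp (n * lam) * ξ y) < 1) →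
  ∀ s : ℝ, 1 ≤ s → s ≤ 2 → ∀ o ∈ up, ∀ D : ℝ, 1 ≤ D → ∀ X ∈ up, ∀ R' : ℝ, 1 ≤ R' →
    (∀ g : Γ, EN ρ A B α lam m s X R' o D 0 g ≤
      ENNReal.ofReal ((C * R' * D) ^ 2 * ch X (ga (ρ g) o) ^ (-s))) ∧
    ∀ (N : ℕ) (g : Γ), EN ρ A B α lam m s X R' o D (N + 1) g ≤
      ENNReal.ofReal ((C * R' * D) ^ 2 * ch X (ga (ρ g) o) ^ (-s)) +
      ∑' g₁ : Γ, ∑ y : Fin k, ∑' n : ℤ, ∑ y' : Fin k,
        ENNReal.ofReal ((C * R') ^ 2 * ch X (ga (ρ g₁) (xp lam (2 * cz) (ξ y))) ^ (-s)) *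
        ENNReal.ofReal ((Real.exp (om lam m (ξ y) (Complex.exp (n * lam) * ξ y') / 4) - 1) *
          ch (xp lam (2 * cz) (ξ y)) (xp lam (2 * cz) (Complex.exp (n * lam) * ξ y')) ^ (-s)) *
        EN ρ A B α lam m s (xp lam (2 * cz) (ξ y')) 66 o D N ((g₁ * α ^ n)⁻¹ * g)

/-- CHN (abstract chains; about 100 lines).

Proof. (1) Induction on `N`.  `Σ'_g E 0 x g ≤ P0`.  Step: sum the inequality over `g`, exchange sums (`ENNReal.tsum_comm`, `tsum_mul_left`): `Σ'_g E N y' ((g₁α^n)⁻¹ g) = Σ'_g E N y' g ≤ 2P0` (reindex by the bijection `g ↦ (g₁α^n)⁻¹g`), so `Σ'_g E (N+1) x g ≤ P0 + Σ'_{g₁} Σ_y Σ'_n Σ_{y'} q x g₁ y · w y n y' · 2P0 ≤ P0 + k² Q W 2P0 ≤ 2 P0`.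
(2) the same computation with `F`, `p'`, `q'`, using (1). -/
def StCHN : Prop := ∀ (Γ : Type) [Group Γ] (α : Γ) (k : ℕ) (E : ℕ → Fin k → Γ → ℝ≥0∞)
  (p : Fin k → Γ → ℝ≥0∞) (q : Fin k → Γ → Fin k → ℝ≥0∞) (w : Fin k → ℤ → Fin k → ℝ≥0∞)
  (P0 Q W : ℝ≥0∞),
  (∀ x g, E 0 x g ≤ p x g) →
  (∀ N x g, E (N + 1) x g ≤ p x g + ∑' g₁ : Γ, ∑ y : Fin k, ∑' n : ℤ, ∑ y' : Fin k,
    q x g₁ y * w y n y' * E N y' ((g₁ * α ^ n)⁻¹ * g)) →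
  (∀ x, ∑' g, p x g ≤ P0) → (∀ x y, ∑' g, q x g y ≤ Q) → (∀ y y', ∑' n, w y n y' ≤ W) →
  (k : ℝ≥0∞) ^ 2 * Q * W ≤ 1 / 2 →
  (∀ N x, ∑' g, E N x g ≤ 2 * P0) ∧
  ∀ (F : ℕ → Γ → ℝ≥0∞) (p' : Γ → ℝ≥0∞) (q' : Γ → Fin k → ℝ≥0∞) (P' Q' : ℝ≥0∞),
    (∀ g, F 0 g ≤ p' g) →
    (∀ N g, F (N + 1) g ≤ p' g + ∑' g₁ : Γ, ∑ y : Fin k, ∑' n : ℤ, ∑ y' : Fin k,
      q' g₁ y * w y n y' * E N y' ((g₁ * α ^ n)⁻¹ * g)) →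
    ∑' g, p' g ≤ P' → (∀ y, ∑' g, q' g y ≤ Q') →
    ∀ N, ∑' g, F N g ≤ P' + (k : ℝ≥0∞) ^ 2 * Q' * W * (2 * P0)

/-- EXC (the excursion sum; about 250 lines).

Proof. `x_y = xp lam (2cz) (ξ y)` is in `up` with `TT = 2cz` (XPT (1), `200|lam| ≤ 1/16`).  ZS2: the balls `{ch x_y . ≤ 1+10⁻⁷}` are embedded, so PK3 (`ε = 10⁻⁷`) gives `PS ρ s x_y x_y' ≤ C_P/(s-σ)²`.  WSM: `W = C_W/(m(s-1)) ≤ C_W/(m(s-σ))`.  REC and CHN with `E N y g = EN .. x_y 66 o D N g`, `p y g = ofReal ((66 C D)² ch x_y (g o)^{-s})`, `Σ_g p = ofReal(..) PS ρ s x_y o`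
(`au ρ g o = ga (ρ g) o`), finite by PSF (`Summable hs^{-s}` follows from `Summable hs^{-σ}`, `hs ≥ 2`), `P0 = Σ_y` of them (or the maximum); `Q = (66C)² C_P/(s-σ)²`; `k²QW ≤ C' k²/(m(s-σ)³) ≤ 1/2` by hypothesis (`m ≥ 1`).  (2) of CHN for `F N g = EN .. o D o D N g` (`X = o`, `R' = D`): `Σ_g F N g ≤ C''` finite, independent of `N`.
Given `P`: let `N` be the maximum of the `ncard Cr` over `P`; each summand is at most `F N γ` as `ofReal` (the segment of `γ` is in the supremum), so the sum (`ENNReal.ofReal_sum_of_nonneg`) is at most `C''`.  If `k = 0` there are no crossings possible... nothing special is needed.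
Hypotheses: hACT hCHI hXPT hZS2 hPK3 hWSM hPSF hREC hCHN. -/
def StEXC : Prop := ∃ C : ℝ, 1 ≤ C ∧
  ∀ (Γ : Type) [Group Γ] (ρ : Γ →* SL) (A B : Set ℂ) (α : Γ) (lam : ℂ) (M : ℝ)
  (G : ℂ → ℂ) (m : ℝ) (φ : ℂ → ℂ) (C3 : ℝ), Ann ρ A B α lam M G m φ C3 → ‖lam‖ ≤ 1 / 3200 →
  m ≤ 2 * Real.pi * lam.re / ‖lam‖ ^ 2 →
  ∀ (k : ℕ) (ξ : Fin k → ℂ), (∀ y, ξ y ∈ LS A B ∧ ξ y ≠ 0) →
  (∀ η ∈ LS A B, η ≠ 0 → ∃ y, ∃ n : ℤ, fd lam η (Complex.exp (n * lam) * ξ y) < 1) →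
  ∀ s σ : ℝ, 1 ≤ σ → σ < s → s ≤ 2 → Summable (fun γ : Γ => hs (ρ γ) ^ (-σ)) →
  C * (k : ℝ) ^ 2 ≤ m * (s - σ) ^ 3 → ∀ o ∈ up, ∀ D : ℝ, 1 ≤ D → ∃ C' : ℝ,
    ∀ (P : Finset Γ) (a b : Γ → ℂ) (u l : Γ → ℝ),
      (∀ γ ∈ P, Adm ρ A B α lam (a γ) (b γ) (u γ) (u γ + l γ) ∧ ch o (gp (a γ) (b γ) (u γ)) ≤ D ∧
        ch (ga (ρ γ) o) (gp (a γ) (b γ) (u γ + l γ)) ≤ D) →
      ∑ γ ∈ P, Real.exp (Om ρ α lam m (a γ) (b γ) (u γ) (u γ + l γ) / 80 - s * l γ) ≤ C'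

/-- NOF (elements which do not share a fixed point with `α`; about 150 lines).

Proof. `D = ρ α = diag(μ, μ⁻¹)`, `|μ| > 1` (`μ² = e^{lam}`).  (1) Suppose `(ρ γ) 1 0 = 0`, `ρ γ = [[p,q],[0,p⁻¹]]`.  `ρ (α^{-n} γ α^n) = [[p, q μ^{-2n}],[0,p⁻¹]]` has `hs` bounded for `n ≥ 0`, so by `disc` two of these elements with `n < n'` coincide: `q μ^{-2n} = q μ^{-2n'}`, `q = 0`; `ρ γ` is diagonal and `st` gives `γ ∈ ⟨α⟩`.  Same for `(ρ γ) 0 1 = 0` (conjugate by `α^n`).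
(2) apply (1) to all conjugates: if `a` is a fixed point (`(ρ γ) 1 0 a + (ρ γ) 1 1 ≠ 0`, `mb (ρ γ) a = a`), and `(ρ g) 1 0 a + (ρ g) 1 1 = 0` for some `g`, then `ρ(g) (a,1)ᵀ` is a multiple of `(1,0)ᵀ`, an eigenvector of `ρ(gγg⁻¹)`, so `(ρ(gγg⁻¹)) 1 0 = 0`, contradiction to (1); if `(ρ g) 0 0 a + (ρ g) 0 1 = 0` then `(0,1)ᵀ` is an eigenvector and the entry `0 1` vanishes.
(3) if `a ∈ A` were a fixed point then `ab ρ (γ^n) a = a` for all `n` (`mpA`, CHV (2)), so by PD2 (last set, `K = K' = {a}`) `{γ^n}` is finite, `γ^n = 1` for some `n ≥ 1`, `γ = 1 = α^0`: contradiction.  Same for `B`.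
Hypotheses: hCHV hPD2. -/
def StNOF : Prop := ∀ (Γ : Type) [Group Γ] (ρ : Γ →* SL) (A B : Set ℂ) (α : Γ) (lam : ℂ) (M : ℝ)
  (G : ℂ → ℂ) (m : ℝ) (φ : ℂ → ℂ) (C3 : ℝ), Ann ρ A B α lam M G m φ C3 →
  ∀ γ : Γ, (∀ (δ : Γ) (n : ℤ), γ ≠ δ * α ^ n * δ⁻¹) →
    (ρ γ) 1 0 ≠ 0 ∧ (ρ γ) 0 1 ≠ 0 ∧
    ∀ a : ℂ, (ρ γ) 1 0 * a + (ρ γ) 1 1 ≠ 0 → mb (ρ γ) a = a → Reg ρ a ∧ a ∈ LS A B

/-- AXR (representatives of conjugacy classes; about 280 lines).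

Proof. `ρ γ` has eigenvalues `μ, μ⁻¹` with `2 log|μ| = tl (ρ γ) > 0` (St_HS2).  `c = (ρ γ) 1 0 ≠ 0` (NOF): the eigenvector for the eigenvalue `κ` is `(x,1)ᵀ` with `c x + d = κ`, `x = (κ - d)/c`: let `a₀` belong to `μ`, `b₀` to `μ⁻¹`.  So `a₀ ≠ b₀`, fixed points, `Reg`, in `LS` (NOF).  GPM (2): `ga (ρ γ) (gp a₀ b₀ v) = gp a₀ b₀ (v + 2 log|μ|)`.
*A point outside the tubes*: for each lift `i` the set `{v | Ti i (gp a₀ b₀ v) > 2cz}` is empty or a bounded open interval (GPT (2), as in the proof of INT), and these intervals are disjoint for different `i` (INT (1)).  If `0` is in none, `v₀ = 0`; otherwise `0 ∈ (s,t)` for `i`, and `v₀ = t` is in none: if `t ∈ (s',t')` for `j`, the intervals meet, so `j = i`, but `t ∉ (s,t)`.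
`sb ≤ 0` at `x₀ = gp a₀ b₀ v₀` (SB5), so by SB6 (`S = 0`, compact set `K`, chosen before `γ`) there is `δ` with `ga (ρ δ) x₀ ∈ K`; `D` = maximum of `ch oo` on `K` and `1` (continuity).  `a = mb (ρ δ) a₀`, `b = mb (ρ δ) b₀`, `κ` from GPM (2), `u = v₀ + κ`, `γ' = δγδ⁻¹`.  First, `Adm a₀ b₀ v₀ (v₀ + l)`: at the end point `ga (ρ γ) x₀`: `Ti i (ga (ρ γ) x₀) = Ti (γ⁻¹•i) x₀ ≤ 2cz` (INV (2)).
INV (3) for `δ`.  `γ'` fixes `a, b` (`ρ(δ) v_{a₀}` is an eigenvector of `ρ γ'` for `μ`, proportional to `v_a`, so `(ρ γ') 1 0 a + (ρ γ') 1 1 = μ`).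
Hypotheses: hHS2 hACT hCHI hCHV hSB5 hSB6 hGPM hGPT hINV hINT hNOF. -/
def StAXR : Prop := ∀ (Γ : Type) [Group Γ] (ρ : Γ →* SL) (A B : Set ℂ) (α : Γ) (lam : ℂ) (M : ℝ)
  (G : ℂ → ℂ) (m : ℝ) (φ : ℂ → ℂ) (C3 : ℝ), Ann ρ A B α lam M G m φ C3 → ‖lam‖ ≤ 1 / 3200 →
  ∃ D : ℝ, 1 ≤ D ∧ ∀ γ : Γ, 0 < tl (ρ γ) → (∀ (δ : Γ) (n : ℤ), γ ≠ δ * α ^ n * δ⁻¹) →
    ∃ (δ : Γ) (a b : ℂ) (u : ℝ),
      (ρ (δ * γ * δ⁻¹)) 1 0 * a + (ρ (δ * γ * δ⁻¹)) 1 1 ≠ 0 ∧ mb (ρ (δ * γ * δ⁻¹)) a = a ∧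
      (ρ (δ * γ * δ⁻¹)) 1 0 * b + (ρ (δ * γ * δ⁻¹)) 1 1 ≠ 0 ∧ mb (ρ (δ * γ * δ⁻¹)) b = b ∧
      1 < ‖(ρ (δ * γ * δ⁻¹)) 1 0 * a + (ρ (δ * γ * δ⁻¹)) 1 1‖ ∧
      (∀ v : ℝ, ga (ρ (δ * γ * δ⁻¹)) (gp a b v) = gp a b (v + tl (ρ γ))) ∧
      Adm ρ A B α lam a b u (u + tl (ρ γ)) ∧ ch oo (gp a b u) ≤ D

/-- PFM (a maximal family of ports; about 80 lines).

Proof. Call a finite family `ξ : Fin k → ℂ` in `LS \ {0}` separated if `1 ≤ fd lam (ξ y) (e^{n lam} ξ y')` whenever `y ≠ y'`, `n ∈ ℤ`.  By hypothesis `k ≤ K` for all of them; the empty family exists; take `k` maximal (`Nat.findGreatest` or `Nat.sSup`).  If some `η ∈ LS \ {0}` had `fd lam η (e^{n lam}ξ y) ≥ 1` for all `y, n`, then `Fin.snoc ξ η` (or `Fin.cons`) would be separated: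
`fd lam (ξ y) (e^{n lam} η) = fd lam (e^{-n lam} ξ y) η = fd lam η (e^{-n lam}ξ y) ≥ 1` (FDM (1), (3)).  Contradiction.
Hypotheses: hFDM. -/
def StPFM : Prop := ∀ (A B : Set ℂ) (lam : ℂ) (K : ℝ), lam ≠ 0 →
  (∀ (k : ℕ) (ξ : Fin k → ℂ), (∀ y, ξ y ∈ LS A B ∧ ξ y ≠ 0) →
    (∀ y y', y ≠ y' → ∀ n : ℤ, 1 ≤ fd lam (ξ y) (Complex.exp (n * lam) * ξ y')) → (k : ℝ) ≤ K) →
  ∃ (k : ℕ) (ξ : Fin k → ℂ), (k : ℝ) ≤ K ∧ (∀ y, ξ y ∈ LS A B ∧ ξ y ≠ 0) ∧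
    (∀ η ∈ LS A B, η ≠ 0 → ∃ y, ∃ n : ℤ, fd lam η (Complex.exp (n * lam) * ξ y) < 1)

end Pool.Agent.Helper88.QT
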