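import Pool.Agent.Helper85.QT.All
import Pool.Agent.Helper86.QA.All2
import Pool.Agent.Helper35.PQF.All
import Pool.Agent.Helper8.QT.M_FDM
import Pool.Agent.Helper99.QT.M_XPT
import Pool.Agent.Helper75.QT.M_CHF
import Pool.Agent.Helper2.QT.M_TRI
import Pool.Agent.Helper16.QT.M_GPM
import Pool.Agent.Helper14.QT.M_GPT
import Pool.Agent.Helper6.QT.M_ENT
import Pool.Agent.Helper26.QT.M_NNS
import Pool.Agent.Helper41.QT.M_ZTB
import Pool.Agent.Helper58.QT.M_ZS0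
import Pool.Agent.Helper78.QT.M_ZS1
import Pool.Agent.Helper44.QT.M_ZS2
import Pool.Agent.Helper87.QT.M_ENL
import Pool.Agent.Helper82.QT.M_TEL
import Pool.Agent.Helper58.QT.M_INV
import Pool.Agent.Helper76.QT.M_INT
import Pool.Agent.Helper18.QT.M_WCT
import Pool.Agent.Helper51.QT.M_WSM
import Pool.Agent.Helper40.QT.M_PSF
import Pool.Agent.Helper95.QT.M_PRT
import Pool.Agent.Helper56.QT.M_REC
import Pool.Agent.Helper1.QT.M_CHN
import Pool.Agent.Helper47.QT.M_EXC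
import Pool.Agent.Helper33.QT.M_NOF
import Pool.Agent.Helper70.QT.M_AXR
import Pool.Agent.Helper10.QT.M_PFM
import Pool.Agent.Helper39.QT.M_HSO
import Pool.Agent.Helper60.QT.M_AVG
import Pool.Agent.Helper98.QT.M_CNT
import Pool.Agent.Helper62.QT.M_CYC
import Pool.Agent.Helper14.QT.M_OSC
import Pool.Agent.Helper34.QT.M_CHC
import Pool.Agent.Helper94.QT.M_FVG

/-!
# Project QT (MP_d112a4_gt): assembly of sections 6, 10, 11 of the tube theorem
-/

set_option autoImplicit false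

open Pool.Agent.Helper86.QA Pool.Agent.Helper35.PM

namespace Pool.Agent.Helper88.QT

theorem tFDM : StFDM := Pool.Agent.Helper8.QT.hFDM
theorem tXPT : StXPT := Pool.Agent.Helper99.QT.hXPT tACT tCHI
theorem tCHF : StCHF := Pool.Agent.Helper75.QT.hCHF tXPT
theorem tTRI : StTRI := Pool.Agent.Helper2.QT.hTRI tACT tCHI
theorem tGPM : StGPM := Pool.Agent.Helper16.QT.hGPM
theorem tGPT : StGPT := Pool.Agent.Helper14.QT.hGPT
theorem tENT : StENT := Pool.Agent.Helper6.QT.hENT tFDM tXPT tGPM tGPT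
theorem tNNS : StNNS := Pool.Agent.Helper26.QT.hNNS
theorem tZTB : StZTB := Pool.Agent.Helper41.QT.hZTB tACT tNNS
theorem tZS0 : StZS0 := Pool.Agent.Helper58.QT.hZS0
theorem tZS1 : StZS1 := Pool.Agent.Helper78.QT.hZS1 tACT tNNS tZTB tZS0
theorem tZS2 : StZS2 := Pool.Agent.Helper44.QT.hZS2 tACT tCHI tFDM tXPT tCHF tTRI tZS1
theorem tENL : StENL :=
  Helper87.QT.hENL tACT tCHI Pool.Agent.Helper85.QT.tSB1 Pool.Agent.Helper85.QT.tSB6
theorem tTEL : StTEL := Pool.Agent.Helper82.QT.hTEL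
theorem tINV : StINV :=
  Pool.Agent.Helper58.QT.hINV tACT tCHV Pool.Agent.Helper85.QT.tSB3 tFDM tXPT tGPM
theorem tINT : StINT := Pool.Agent.Helper76.QT.hINT tACT tCHV tXPT tGPM tGPT tENT tZS1
theorem tWCT : StWCT := Pool.Agent.Helper18.QT.hWCT tFDM
theorem tWSM : StWSM := Pool.Agent.Helper51.QT.hWSM tFDM tXPT tCHF tWCT
theorem tPSF : StPSF := Pool.Agent.Helper40.QT.hPSF tACT tCHI
theorem tPRT : StPRT :=
  Pool.Agent.Helper95.QT.hPRT tACT tCHI tCHV Pool.Agent.Helper85.QT.tSB3 tFDM tXPT tCHF tGPM tINV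
theorem tREC : StREC := Pool.Agent.Helper56.QT.hREC tACT tCHI tGPM tXPT tTEL tINV tINT tPRT
theorem tCHN : StCHN := Pool.Agent.Helper1.QT.hCHN
theorem tEXC : StEXC :=
  Pool.Agent.Helper47.QT.hEXC tACT tCHI tXPT tZS2 Pool.Agent.Helper85.QT.tPK3 tWSM tPSF tREC tCHN
theorem tNOF : StNOF := Pool.Agent.Helper33.QT.hNOF tCHV tPD2
theorem tAXR : StAXR :=
  Pool.Agent.Helper70.QT.hAXR hs2_ tACT tCHI tCHV Pool.Agent.Helper85.QT.tSB5
    Pool.Agent.Helper85.QT.tSB6 tGPM tGPT tINV tINT tNOF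
theorem tPFM : StPFM := Pool.Agent.Helper10.QT.hPFM tFDM
theorem tHSO : StHSO := Pool.Agent.Helper39.QT.hHSO hk_
theorem tAVG : StAVG := Pool.Agent.Helper60.QT.hAVG hs2_ hl_ hk_ jg_ tHSO
theorem tCNT : StCNT := Pool.Agent.Helper98.QT.hCNT
theorem tCYC : StCYC := Pool.Agent.Helper62.QT.hCYC hs2_ ln_
theorem tOSC : StOSC := Pool.Agent.Helper14.QT.hOSC hk_
theorem tFVG : StFVG := Pool.Agent.Helper94.QT.hFVG hs2_ hl_

end Pool.Agent.Helper88.QT
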