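import Pool.Agent.Helper85.QT.Defs

/-!
# Project QT (stage 2 of QD, MP_d112a4_gt), sections 6, 10, 11: definitions

Disjoint tubes, excursion sums, counting and cost.  Model: `Helper86.QA`, `Helper85.QT.Defs`.
-/

set_option autoImplicit false

open MeasureTheory Matrix Set Topology
open scoped ENNReal ComplexConjugate

namespace Pool.Agent.Helper88.QT

open Pool.Agent.Helper86.QA Pool.Agent.Helper85.QT
open Pool.Agent.Helper35.PM (hs len classes num ent)

/-- square root of the sum of the squares of the entries -/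
noncomputable def nn (X : Mat) : ℝ := Real.sqrt (hs X)

/-- the universal constant of the tubes -/
noncomputable def cz : ℝ := 100

variable {Γ : Type} [Group Γ]

/-- points of the plane whose orbit avoids `0` and `∞` -/
def Reg (ρ : Γ →* SL) (a : ℂ) : Prop :=
  ∀ g : Γ, ρ g 1 0 * a + ρ g 1 1 ≠ 0 ∧ ρ g 0 0 * a + ρ g 0 1 ≠ 0

/-- the lifts of the tube -/
abbrev Li (α : Γ) : Type := Γ ⧸ Subgroup.zpowers α

/-- flat height over the lift `i` -/
noncomputable def Ti (ρ : Γ →* SL) (α : Γ) (lam : ℂ) (i : Li α) (x : Pt) : ℝ :=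
  Tg ρ lam (Quotient.out i) x

/-- weight of a passage with endpoints `a, b` -/
noncomputable def om (lam : ℂ) (m : ℝ) (a b : ℂ) : ℝ :=
  min 1 ((1 + fd lam a b) ^ 2 / m ^ 2) * (1 + |Real.log (‖a‖ / ‖b‖)|)

/-- weight of the passage through the lift `i` of a geodesic with endpoints `a, b` -/
noncomputable def oi (ρ : Γ →* SL) (α : Γ) (lam : ℂ) (m : ℝ) (i : Li α) (a b : ℂ) : ℝ :=
  om lam m (mb (ρ (Quotient.out i)⁻¹) a) (mb (ρ (Quotient.out i)⁻¹) b)

/-- lifts crossed by the segment with parameters in `[u,u']` of the geodesic from `b` to `a` -/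
def Cr (ρ : Γ →* SL) (α : Γ) (lam : ℂ) (a b : ℂ) (u u' : ℝ) : Set (Li α) :=
  {i | ∃ v ∈ Icc u u', 2 * cz < Ti ρ α lam i (gp a b v)}

/-- total weight of a segment -/
noncomputable def Om (ρ : Γ →* SL) (α : Γ) (lam : ℂ) (m : ℝ) (a b : ℂ) (u u' : ℝ) : ℝ :=
  ∑ᶠ i ∈ Cr ρ α lam a b u u', oi ρ α lam m i a b

/-- admissible segments: endpoints of the geodesic in the limit set, end points of the segment
outside the tubes -/
structure Adm (ρ : Γ →* SL) (A B : Set ℂ) (α : Γ) (lam : ℂ) (a b : ℂ) (u u' : ℝ) : Prop where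
  la : a ∈ LS A B
  lb : b ∈ LS A B
  ne : a ≠ b
  ra : Reg ρ a
  rb : Reg ρ b
  le : u ≤ u'
  st : ∀ i : Li α, Ti ρ α lam i (gp a b u) ≤ 2 * cz
  en : ∀ i : Li α, Ti ρ α lam i (gp a b u') ≤ 2 * cz

/-- supremum of the weight of admissible segments with at most `N` crossings from a neighbourhood
of `X` to a neighbourhood of the point `g o` -/
noncomputable def EN (ρ : Γ →* SL) (A B : Set ℂ) (α : Γ) (lam : ℂ) (m s : ℝ) (X : Pt) (R : ℝ)
    (o : Pt) (D : ℝ) (N : ℕ) (g : Γ) : ℝ≥0∞ :=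
  ⨆ (p : (ℂ × ℂ) × (ℝ × ℝ)) (_ : Adm ρ A B α lam p.1.1 p.1.2 p.2.1 p.2.2 ∧
      (Cr ρ α lam p.1.1 p.1.2 p.2.1 p.2.2).ncard ≤ N ∧ ch X (gp p.1.1 p.1.2 p.2.1) ≤ R ∧
      ch (ga (ρ g) o) (gp p.1.1 p.1.2 p.2.2) ≤ D),
    ENNReal.ofReal (Real.exp (Om ρ α lam m p.1.1 p.1.2 p.2.1 p.2.2 / 80 - s * (p.2.2 - p.2.1)))

/-- the length of the class `c` along the disc `f` is the real part of a holomorphic function whose
derivative at `0` has modulus at most `x` -/
def GradLE (f : ℂ → Γ →* SL) (c : ConjClasses Γ) (x : ℝ) : Prop :=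
  ∃ Λ : ℂ → ℂ, DifferentiableOn ℂ Λ (Metric.ball 0 1) ∧
    (∀ z ∈ Metric.ball (0 : ℂ) 1, (Λ z).re = len (f z) c) ∧ ‖deriv Λ 0‖ ≤ x

/-- the disc automorphism `ζ ↦ (ζ + p)/(1 + conj p ζ)` -/
noncomputable def Tp (p ζ : ℂ) : ℂ := (ζ + p) / (1 + conj p * ζ)

end Pool.Agent.Helper88.QT
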