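import Pool.Agent.Helper88.QT.Defs
import Pool.Agent.Helper85.QT.Defs2
import Pool.Agent.Helper68.QC.Defs
import Pool.Agent.Helper35.PQF.St

/-!
# Project QT (stage 2 of QD, MP_d112a4_gt), section 11: definitions
-/

set_option autoImplicit false

open MeasureTheory Matrix Set Topology
open scoped ENNReal ComplexConjugate

namespace Pool.Agent.Helper88.QT

open Pool.Agent.Helper86.QA Pool.Agent.Helper85.QT
open Pool.Agent.Helper68.QC (nq Bel InvB Intw)

/-- The data of the tube theorem at the centre of the holomorphic disc `f` (of representations):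
`r` is conjugate to `f 0`, with an embedded annulus of modulus `m` in the class of `α`; the disc is
`s ↦ s μ`, `μ` constant in the coordinate of the annulus. -/
structure PtD {Γ : Type} [Group Γ] (f : ℂ → Γ →* SL) (α : Γ) (m C3 a0 : ℝ) (r : Γ →* SL)
    (A B : Set ℂ) (lam : ℂ) (M : ℝ) (G φ μ : ℂ → ℂ) (μ0 : ℂ) : Prop where
  cj : ∃ C : SL, ∀ γ, r γ = C * f 0 γ * C⁻¹
  an : Ann r A B α lam M G m φ C3
  cl : Cls A B lam G φ m
  co : Cof r A lam G φ m μ0 μ
  it : ∀ s : ℂ, ‖s‖ < 1 → ∃ C' : SL, ∀ γ, Intw (r γ) (C' * f s γ * C'⁻¹) (nq (fun z => s * μ z))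
  ar : ∃ (F F' : ℂ → ℂ) (σ τ : Γ →* SL), CF r A F σ ∧ CF r B F' τ ∧ ∀ DA DB : Set ℂ,
    FDOn (ab r) A DA → FDOn (ab r) B DB →
    ∫⁻ ξ in DA, ENNReal.ofReal (rX F ξ) ≤ ENNReal.ofReal a0 ∧
    ∫⁻ ξ in DB, ENNReal.ofReal (rX F' ξ) ≤ ENNReal.ofReal a0

/-- `f` recentred at `p` -/
noncomputable def rc {Γ : Type} [Group Γ] (f : ℂ → Γ →* SL) (p : ℂ) : ℂ → Γ →* SL :=
  fun s => f (Tp p s)

end Pool.Agent.Helper88.QT
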