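import Pool.Agent.Helper88.QT.Defs

/-!
# Project QT, helper88, statements 1: flat coordinates, geodesics, disjoint tubes (Zassenhaus)

Every module `X` proves `theorem hX (h1 : StA) ... : StX`, the statements listed as hypotheses may be used.  Complete proofs in the docstrings.
Write `x = (z,t)`, `N = NN x = |z|²+t²`, `κ = cR x = √N/t ≥ 1`, so `TT lam x = 1/(|lam| κ)`, `rd x = √N z/|z|`.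
-/

set_option autoImplicit false

open MeasureTheory Matrix Set Topology
open scoped ENNReal ComplexConjugate

namespace Pool.Agent.Helper88.QT

open Pool.Agent.Helper86.QA Pool.Agent.Helper85.QT
open Pool.Agent.Helper35.PM (hs len classes num ent)

/-- FDM (the flat distance; about 150 lines).

Proof. `L(q) = |Log q|` for `q ≠ 0`, `Log q = log|q| + i arg q`, `arg q ∈ (-π,π]`.  (a) `L(q⁻¹) = L(q)` (`log|q⁻¹| = -log|q|`, `|arg q⁻¹| = |arg q|`, `Complex.arg_inv`, `abs_arg_inv`).  (b) for `w ∈ ℂ`: `L(exp w) ≤ |w|`: `Re Log (exp w) = Re w` and `|arg (exp w)| ≤ |Im w|`: if `|Im w| ≤ π` then `arg (exp w)` is `Im w` or (`Im w = -π`) `π`, otherwise `|arg| ≤ π < |Im w|`.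
(c) `exp (Log q) = q`.  (5): given `x` and `η ≠ 0` let `w = Log (exp (lam x)/η)` and `y = x - w/lam`: `exp (lam y) = exp (lam x) exp(-w) = η` and `|x - y| = |w|/|lam| = fd`.  (4): `exp(lam x)/exp(lam y) = exp (lam (x-y))`, (b).  (2): by (5) with `exp (lam x) = ξ` (`x = Log ξ/lam`) get `y` with `exp (lam y) = η`, `|x-y| = fd ξ η`, then `z` with `exp(lam z) = ζ`, `|y-z| = fd η ζ`; (4).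
(3): `(cξ)/(cη) = ξ/η`.  (1): (a); `|log(|ξ|/|η|)| = |Re Log(ξ/η)| ≤ |Log (ξ/η)|`.  (6): `|Log q| ≤ 2 |q - 1|` for `|q-1| ≤ 1/2` (Mathlib: `Complex.norm_log_one_add_half_le_self` or similar, `≤ (3/2)|q-1|`).  (7) `|arg| ≤ π`, `|Log q| ≥ 0`... : if `‖ξ‖ = ‖η‖`-free: `fd ≤ (|log(|ξ|/|η|)| + π)/|lam|`. -/
def StFDM : Prop := ∀ lam : ℂ, lam ≠ 0 →
  (∀ ξ η : ℂ, ξ ≠ 0 → η ≠ 0 → fd lam ξ η = fd lam η ξ ∧ 0 ≤ fd lam ξ η ∧ fd lam ξ ξ = 0 ∧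
    |Real.log (‖ξ‖ / ‖η‖)| ≤ ‖lam‖ * fd lam ξ η) ∧
  (∀ ξ η ζ : ℂ, ξ ≠ 0 → η ≠ 0 → ζ ≠ 0 → fd lam ξ ζ ≤ fd lam ξ η + fd lam η ζ) ∧
  (∀ c ξ η : ℂ, c ≠ 0 → ξ ≠ 0 → η ≠ 0 → fd lam (c * ξ) (c * η) = fd lam ξ η) ∧
  (∀ x y : ℂ, fd lam (Complex.exp (lam * x)) (Complex.exp (lam * y)) ≤ ‖x - y‖) ∧
  (∀ x η : ℂ, η ≠ 0 → ∃ y : ℂ, Complex.exp (lam * y) = η ∧
    fd lam (Complex.exp (lam * x)) η = ‖x - y‖) ∧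
  (∀ ξ η : ℂ, η ≠ 0 → ‖ξ / η - 1‖ ≤ 1 / 2 → ‖lam‖ * fd lam ξ η ≤ 2 * ‖ξ / η - 1‖)

/-- XPT (cylindrical coordinates; about 150 lines).

Proof. Direct computation.  `NN (xp lam T ξ) = |ξ|²`, since `(1 - (T|lam|)²)|ξ|² + |ξ|²(T|lam|)² = |ξ|²`; so `TT = |ξ| T|lam|/(|lam||ξ|) = T`, and if `T|lam| < 1`: `rd = ξ s |ξ|/(|ξ| s) = ξ` with `s = √(1-(T|lam|)²) > 0`.  `TT lam x |lam| = t/√N ≤ 1`, equality iff `z = 0`.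
(3) `xp lam (TT lam x) (rd x)`: `|rd x| = √N`, `1 - (TT|lam|)² = |z|²/N`, so the first coordinate is `rd x |z|/√N = z`, the second `√N t/√N = t`.  (4) `g` diagonal: `g 0 0 g 1 1 = 1`, `den g x = |g 1 1|²`, `ga g x = (g00 z conj g11/|g11|², t/|g11|²) = (q z, |q| t)` with `q = g00/g11` (`g00 = 1/g11`).  `NN (ga g x) = |q|² N`; the rest follows.
(5) `cR y ≤ 2 ch x y cR x`: with `e = (0, √N_x)`: `ch x e = N_x·2/(2 t √N_x) = cR x`; `ch y e' ≥ cR y` for every `e' = (0,r)`: `(N_y + r²)/(2 t_y r) ≥ √N_y/t_y`; CHI (3): `cR y ≤ ch y e ≤ 2 ch y x ch x e`.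
Hypotheses: hACT hCHI. -/
def StXPT : Prop := ∀ lam : ℂ, lam ≠ 0 →
  (∀ (T : ℝ) (ξ : ℂ), 0 < T → T * ‖lam‖ ≤ 1 → ξ ≠ 0 → xp lam T ξ ∈ up ∧ TT lam (xp lam T ξ) = T ∧
    (T * ‖lam‖ < 1 → rd (xp lam T ξ) = ξ ∧ (xp lam T ξ).1 ≠ 0)) ∧
  (∀ x ∈ up, 0 < TT lam x ∧ TT lam x * ‖lam‖ ≤ 1 ∧ 1 ≤ cR x ∧ cR x * (‖lam‖ * TT lam x) = 1 ∧
    (TT lam x * ‖lam‖ < 1 → x.1 ≠ 0)) ∧
  (∀ x ∈ up, x.1 ≠ 0 → rd x ≠ 0 ∧ xp lam (TT lam x) (rd x) = x) ∧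
  (∀ (g : SL) (x : Pt), x ∈ up → g 0 1 = 0 → g 1 0 = 0 →
    ga g x = (g 0 0 / g 1 1 * x.1, ‖g 0 0 / g 1 1‖ * x.2) ∧ TT lam (ga g x) = TT lam x ∧
    rd (ga g x) = g 0 0 / g 1 1 * rd x ∧ g 0 0 / g 1 1 ≠ 0 ∧
    (∀ ξ : ℂ, mb g ξ = g 0 0 / g 1 1 * ξ) ∧
    ∀ (T : ℝ) (ξ : ℂ), 0 < T → T * ‖lam‖ ≤ 1 → ξ ≠ 0 →
      ga g (xp lam T ξ) = xp lam T (g 0 0 / g 1 1 * ξ)) ∧
  (∀ x ∈ up, ∀ y ∈ up, cR y ≤ 2 * ch x y * cR x ∧ TT lam x ≤ 2 * ch x y * TT lam y)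

/-- CHF (distance in cylindrical coordinates; about 180 lines).

Proof. (1) `rd x/rd y = √(N_x/N_y) e^{i(θ_x-θ_y)}`, so `w = Log (rd x/rd y)` has `Re w = log √(N_x/N_y)` and `cos (Im w) = cos (θ_x-θ_y)`.  `2 t t' ch x y = N_x + N_y - 2 Re (z conj z')`, `N_x + N_y = 2√(N_xN_y) cosh (Re w)`, `Re(z conj z') = |z||z'| cos (Im w)`, `|z|/t = √(κ²-1)`.
Now `TT x = TT y = T`, `κ = 1/(|lam|T)`, `w = u + iv`, `|v| ≤ π`, `|w| = |lam| fd`, so `ch - 1 = κ²(cosh u - 1) + (κ²-1)(1 - cos v)`.  (2) `|lam|T ≤ 1/2`, `κ² - 1 ≥ (3/4)κ²`; `cosh u - 1 ≥ u²/2`, `1 - cos v ≥ 2v²/π²` for `|v| ≤ π`; so `ch - 1 ≥ (3/4)(2/π²) κ²|w|² ≥ κ²|w|²/8 = fd²/(8T²)`.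
(3) if `|lam| fd ≤ 1`: `|u|, |v| ≤ 1`, `cosh u - 1 ≤ u²`, `1 - cos v ≤ v²/2`: `ch - 1 ≤ κ²|w|² = fd²/T²`.  (4) `|u| ≥ 1`: `ch ≥ κ²(cosh u - 1) ≥ κ² e^{|u|}/8` (`cosh u - 1 - e^{|u|}/8` is positive at `|u| = 1` and increasing).
Hypotheses: hXPT. -/
def StCHF : Prop := ∀ lam : ℂ, lam ≠ 0 →
  (∀ x ∈ up, ∀ y ∈ up, x.1 ≠ 0 → y.1 ≠ 0 → ch x y =
    cR x * cR y * Real.cosh (Complex.log (rd x / rd y)).re -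
      Real.sqrt (cR x ^ 2 - 1) * Real.sqrt (cR y ^ 2 - 1) * Real.cos (Complex.log (rd x / rd y)).im) ∧
  (∀ T : ℝ, 0 < T → ‖lam‖ * T ≤ 1 / 2 → ∀ x ∈ up, ∀ y ∈ up, TT lam x = T → TT lam y = T →
    1 + fd lam (rd x) (rd y) ^ 2 / (8 * T ^ 2) ≤ ch x y ∧
    (‖lam‖ * fd lam (rd x) (rd y) ≤ 1 → ch x y ≤ 1 + fd lam (rd x) (rd y) ^ 2 / T ^ 2) ∧
    (1 ≤ |Real.log (‖rd x‖ / ‖rd y‖)| →
      Real.exp |Real.log (‖rd x‖ / ‖rd y‖)| / (8 * (‖lam‖ * T) ^ 2) ≤ ch x y))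

/-- TRI (hyperbolic triangle inequality; about 120 lines).

Proof. By ACT, CHI (2) move `y` to `oo` (`ga (gx y)⁻¹`).  `Xm oo = 1`.  Let `c₁ = ch x oo`, `c₂ = ch oo z`: `Xm x = c₁ 1 + P`, `Xm z = c₂ 1 + Q`, `P, Q` Hermitian of trace zero (`2 c = tr` by CHI (1)), `P = [[p,q],[conj q,-p]]`, `det Xm x = 1` gives `p² + |q|² = c₁² - 1`, same for `Q`.  `(Xm x)⁻¹ = c₁ 1 - P` (adjugate), so `2 ch x z = tr ((c₁-P)(c₂+Q)) = 2c₁c₂ - tr (PQ)` and `|tr (PQ)| = |2(pp' + Re (q conj q'))| ≤ 2 √(c₁²-1) √(c₂²-1)` (Cauchy-Schwarz).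
(2) with `c₁, c₂ ≤ 1+ε`: `(1+ε)² + (1+ε)² - 1 ≤ 1 + 5ε` for `ε ≤ 1/2`.
Hypotheses: hACT hCHI. -/
def StTRI : Prop :=
  (∀ x ∈ up, ∀ y ∈ up, ∀ z ∈ up,
    ch x z ≤ ch x y * ch y z + Real.sqrt (ch x y ^ 2 - 1) * Real.sqrt (ch y z ^ 2 - 1)) ∧
  (∀ ε : ℝ, 0 ≤ ε → ε ≤ 1 / 2 → ∀ x ∈ up, ∀ y ∈ up, ∀ z ∈ up, ch x y ≤ 1 + ε → ch y z ≤ 1 + ε →
    ch x z ≤ 1 + 5 * ε)

/-- GPM (geodesics; about 150 lines).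

Proof. (1) `t = |a-b|/(e^u+e^{-u}) > 0`; `Xm (gp a b u) = (e^u/l) v_a v_aᴴ + (e^{-u}/l) v_b v_bᴴ`, `l = |a-b|`, `v_a = (a,1)`: entry (1,1): `(e^u+e^{-u})/l = 1/t`; (0,1): `(e^u a + e^{-u} b)/l = z/t`; (0,0): both sides complete a Hermitian matrix of determinant one (`(p|a|²+q|b|²)(p+q) - |pa+qb|² = pq|a-b|²`).  `2 ch x y = tr (Xm x⁻¹ Xm y)` or direct computation: `ch = cosh (u-u')`.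
(2) ACT: `Xm (ga g x) = g Xm x gᴴ`, `g v_a = j_a v_(a')`, `j_a = g10 a + g11`, `a' = mb g a`, `|a'-b'| = l/(|j_a||j_b|)` (CHV (3)); so `Xm (ga g x) = (e^u|j_a|²/l) v_a' v_a'ᴴ + (e^{-u}|j_b|²/l) v_b' v_b'ᴴ`, and with `l' = |a'-b'|`, `u' = u + log (|j_a|/|j_b|)`: `e^{u'}/l' = e^u (|j_a|/|j_b|)|j_a||j_b|/l = e^u|j_a|²/l`, same for `b`.  `Xm` is injective on `up` (the entries (1,1), (0,1) determine `t`, `z`).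
(3) symmetric formula, continuity.  (4) `g` diagonal with `q = g00/g11`: special case, `j_a = j_b`.
Hypotheses: hACT hCHI hCHV. -/
def StGPM : Prop :=
  (∀ (a b : ℂ) (u u' : ℝ), a ≠ b → gp a b u ∈ up ∧ ch (gp a b u) (gp a b u') = Real.cosh (u - u') ∧
    gp a b u = gp b a (-u)) ∧
  (∀ (g : SL) (a b : ℂ) (u : ℝ), a ≠ b → g 1 0 * a + g 1 1 ≠ 0 → g 1 0 * b + g 1 1 ≠ 0 →
    mb g a ≠ mb g b ∧ ga g (gp a b u) =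
      gp (mb g a) (mb g b) (u + Real.log (‖g 1 0 * a + g 1 1‖ / ‖g 1 0 * b + g 1 1‖))) ∧
  (∀ a b : ℂ, Continuous (gp a b))

/-- GPT (flat height along a geodesic; about 200 lines).

Proof. (1) `NN/t² = ((1/t)) (N/t) = (e^u+e^{-u})(e^u|a|²+e^{-u}|b|²)/|a-b|²` (entries (1,1) and (0,0) of `Xm`, see GPM; or directly from `NN = |z|²+t²` and `|e^u a + e^{-u} b|² + |a-b|² = (e^u|a|²+e^{-u}|b|²)(e^u+e^{-u})`), and `(|lam| TT)^{-2} = N/t²`.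
(2) Put `u₀ = (1/2) log (|b|/|a|)`, `β = |a||b| > 0`: the numerator is `f(w) = 2β cosh (2(w-u₀)) + |a|² + |b|²` (`|a|²e^{2w} = β e^{2(w-u₀)}`).  `TT(gp w) > T` iff `f(w) < K := |a-b|²/(|lam|T)²`.  If this holds for `w = v` then `κ := (K-|a|²-|b|²)/(2β) > cosh (2(v-u₀)) ≥ 1`, and with `x₀ = (1/2) arcosh κ > 0` (`Real.arcosh` or `log (κ+√(κ²-1))`): `f(w) < K` iff `|w-u₀| < x₀`, `f(w) = K` iff `|w-u₀| = x₀`.  `s = u₀-x₀`, `t = u₀+x₀`.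
`|a|e^{2s} ≤ |b|`: `e^{2s} ≤ e^{2u₀} = |b|/|a|`; same for `t`.  (3) levels `T/2 < T`: `K' = 4K`; `s', t'` for the level `T/2` are `u₀ ∓ x₀'` with `cosh 2x₀' = (4K - |a|²-|b|²)/(2β) = 4 cosh 2x₀ + 3(|a|²+|b|²)/(2β) ≥ 4 cosh 2x₀ ≥ 4·e^{2x₀}/2 ≥ e^{2x₀+1/2}`... `cosh 2x₀' ≤ e^{2x₀'}`, and `4 cosh 2x₀ ≥ 2 e^{2x₀} ≥ e^{2x₀ + 1/2}`, so `x₀' ≥ x₀ + 1/4`. -/
def StGPT : Prop := ∀ (lam a b : ℂ), lam ≠ 0 → a ≠ 0 → b ≠ 0 → a ≠ b →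
  (∀ w : ℝ, 1 / (‖lam‖ * TT lam (gp a b w)) ^ 2 =
    (‖a‖ ^ 2 * Real.exp (2 * w) + ‖b‖ ^ 2 * Real.exp (-(2 * w)) + ‖a‖ ^ 2 + ‖b‖ ^ 2) / ‖a - b‖ ^ 2) ∧
  (∀ (T v : ℝ), 0 < T → T < TT lam (gp a b v) → ∃ s t : ℝ, s < v ∧ v < t ∧
    TT lam (gp a b s) = T ∧ TT lam (gp a b t) = T ∧ (∀ w : ℝ, T < TT lam (gp a b w) ↔ w ∈ Ioo s t) ∧
    ‖a‖ * Real.exp (2 * s) ≤ ‖b‖ ∧ ‖b‖ * Real.exp (-(2 * t)) ≤ ‖a‖ ∧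
    ∀ w : ℝ, s - 1 / 4 < w → w < t + 1 / 4 → T / 2 < TT lam (gp a b w))

/-- ENT (the foot of an entry point is near the endpoint; about 100 lines).

Proof. `δ = |lam| TT lam x = t/√N ≤ 1/16`, `x = gp a b u`.  By GPT (1): `|a-b|² = δ²(|a|²(e^{2u}+1) + |b|²(e^{-2u}+1))`, so `|a-b| ≤ δ(|a|√(e^{2u}+1) + |b|√(e^{-2u}+1))`.  `x.1 - b = e^u (a-b)/(e^u+e^{-u})`, `|x.1-b| = |a-b| e^{2u}/(e^{2u}+1)`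
`≤ δ(|a| e^{2u}/√(e^{2u}+1) + |b| e^{u}/√(e^{2u}+1)) ≤ δ(|a|e^{2u} + |b|) ≤ 2δ|b|` (`√(e^{-2u}+1) = e^{-u}√(e^{2u}+1)`).  `rd x = x.1 · √N/|x.1|`, `√N/|x.1| = 1/√(1-δ²) ≤ 1 + δ²`... (`δ ≤ 1/16`), so `|rd x/b - 1| ≤ |x.1/b - 1| + |x.1/b|(√N/|x.1| - 1) ≤ 2δ + (1+2δ)δ² ≤ 3δ ≤ 1/2`.  FDM (6): `|lam| fd ≤ 6δ`, i.e. `fd lam (rd x) b ≤ 6 TT ≤ 8 TT`.
(2) from (1) and `gp a b u = gp b a (-u)`.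
Hypotheses: hFDM hXPT hGPM hGPT. -/
def StENT : Prop := ∀ (lam a b : ℂ) (u : ℝ), lam ≠ 0 → a ≠ 0 → b ≠ 0 → a ≠ b →
  ‖lam‖ * TT lam (gp a b u) ≤ 1 / 16 →
  (‖a‖ * Real.exp (2 * u) ≤ ‖b‖ → fd lam (rd (gp a b u)) b ≤ 8 * TT lam (gp a b u)) ∧
  (‖b‖ * Real.exp (-(2 * u)) ≤ ‖a‖ → fd lam (rd (gp a b u)) a ≤ 8 * TT lam (gp a b u))

/-- NNS (the norm `nn`; about 150 lines).

Proof. `nn` is the Frobenius norm (`Matrix.frobeniusNormedRing` or by hand, `hs X = Σ|X i j|²`).  (2) for `A ∈ SL`: `A⁻¹ = [[d,-b],[-c,a]]`.  (3) `k kᴴ = 1`: `hs (k⁻¹ X k) = tr (..)` is invariant under multiplication by unitary matrices (`hs X = Re tr (X Xᴴ)`).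
(4) `A B A⁻¹ B⁻¹ - 1 = (AB - BA) A⁻¹ B⁻¹ = ((A-ε)(B-ε') - (B-ε')(A-ε)) A⁻¹ B⁻¹` (`ε, ε'` scalars), `nn (A⁻¹) = nn A ≤ √2 + 1/10 ≤ 1.52`, `2 · 1.52² ≤ 5`. -/
def StNNS : Prop :=
  (∀ X Y : Mat, nn (X * Y) ≤ nn X * nn Y ∧ nn (X + Y) ≤ nn X + nn Y ∧ nn (-X) = nn X ∧
    (nn X = 0 ↔ X = 0) ∧ 0 ≤ nn X ∧ nn X ^ 2 = hs X) ∧
  (∀ A : SL, nn ((A⁻¹ : SL) : Mat) = nn (A : Mat)) ∧
  (∀ (k : SL) (X : Mat), (k : Mat) * (k : Mat)ᴴ = 1 → nn (((k⁻¹ : SL) : Mat) * X * (k : Mat)) = nn X) ∧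
  (∀ (A B : SL) (ε ε' : ℂ), (ε = 1 ∨ ε = -1) → (ε' = 1 ∨ ε' = -1) →
    nn ((A : Mat) - ε • (1 : Mat)) ≤ 1 / 10 → nn ((B : Mat) - ε' • (1 : Mat)) ≤ 1 / 10 →
    nn (((A * B * A⁻¹ * B⁻¹ : SL) : Mat) - 1) ≤
      5 * nn ((A : Mat) - ε • (1 : Mat)) * nn ((B : Mat) - ε' • (1 : Mat)))

/-- ZTB (in the tube the generator is close to `±1`; about 120 lines).

Proof. `D 0 0 D 1 1 = 1` and `D 0 0 = e^{lam} D 1 1` give `(D 0 0)² = e^{lam}`, so `D 0 0 = ε e^{lam/2}`, `D 1 1 = ε e^{-lam/2}` with `ε ∈ {1,-1}`.  `g = gx x = [[√t, z/√t],[0,1/√t]]`: `g⁻¹ D g = [[D00, (D00-D11) z/t],[0, D11]]`.  So `nn(.. - ε)² = |e^{lam/2}-1|² + |e^{-lam/2}-1|² + |e^{lam/2}-e^{-lam/2}|²|z|²/t²`.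
`12 ≤ TT lam x ≤ 1/|lam|`: `|lam| ≤ 1/12`; `|e^w - 1| ≤ 1.05|w|` for `|w| ≤ 1/24`, `|e^{lam/2}-e^{-lam/2}| ≤ 1.1|lam|`.  So it is at most `1.25|lam|²(1 + |z|²/t²) = 1.25/TT²` (`1+|z|²/t² = N/t²`), and `√1.25 ≤ 6/5`.
(2) `y = ga (ρ g)⁻¹ x`: `ρ(g)⁻¹ gx x` and `gx y` both map `oo` to `y` (ACT), so `ρ(g)⁻¹ gx x = gx y · k` with `ga k oo = oo`, i.e. `k kᴴ = 1` (`Xm oo = 1`, ACT (1), injectivity of `Xm`).  `(gx x)⁻¹ ρ(g) D ρ(g)⁻¹ gx x = k⁻¹ (gx y)⁻¹ D gx y k`; NNS (3) and (1) at `y`.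
Hypotheses: hACT hNNS. -/
def StZTB : Prop := ∀ (lam : ℂ) (D : SL), 0 < lam.re → D 0 1 = 0 → D 1 0 = 0 →
  D 0 0 = Complex.exp lam * D 1 1 → ∀ (x : Pt) (hx : x ∈ up) (h : SL),
    12 ≤ TT lam (ga h⁻¹ x) → ∃ ε : ℂ, (ε = 1 ∨ ε = -1) ∧
      nn ((((gx x hx)⁻¹ * (h * D * h⁻¹) * gx x hx : SL) : Mat) - ε • (1 : Mat)) ≤ 1 / 10

/-- ZS0 (powers of the generator; about 150 lines).

Proof. `D = ρ α = diag(μ, μ⁻¹)`, `μ² = e^{lam}`, `|μ| > 1`.  (1) `ρ δ = 1` implies `δ = 1`: the kernel of `ρ` is a subgroup contained in `{hs ≤ 2}`, finite by `disc`, so `δ^n = 1` for some `n ≥ 1` (`exists_pow_eq_one`), `tf`.  (2) if `β` commutes with `α`, `P = ρ β`, then `P D = D P`: `P01 μ⁻¹ = μ P01` so `P01 = 0` (`μ² ≠ 1`), `P10 = 0`; `st`.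
(3) if `β α β⁻¹ = α^k` or `β α⁻¹ β⁻¹ = α^k` (`k ∈ ℤ`): `P D^{±1} = D^k P`; entries `P00 μ^{±1} = μ^k P00`, `P11 μ^{∓1} = μ^{-k} P11`, `P01 μ^{∓1} = μ^k P01`, `P10 μ^{±1} = μ^{-k} P10`.  If `P00 ≠ 0` then `k = ±1` (`|μ| > 1`), so `P01 μ^{∓1} = μ^{±1} P01` gives `P01 = 0`, `P10 = 0`.
If `P00 = 0` then `P01, P10 ≠ 0` (determinant), `k = ∓1`, and `P11 μ^{∓1} = μ^{±1} P11` gives `P11 = 0`.  `st` in both cases. -/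
def StZS0 : Prop := ∀ (Γ : Type) [Group Γ] (ρ : Γ →* SL) (A B : Set ℂ) (α : Γ) (lam : ℂ) (M : ℝ)
  (G : ℂ → ℂ) (m : ℝ) (φ : ℂ → ℂ) (C3 : ℝ), Ann ρ A B α lam M G m φ C3 →
  (∀ δ : Γ, (ρ δ : Mat) = 1 → δ = 1) ∧
  (∀ β : Γ, β * α = α * β → ∃ n : ℤ, β = α ^ n) ∧
  (∀ (β : Γ) (k : ℤ), (β * α * β⁻¹ = α ^ k ∨ β * α⁻¹ * β⁻¹ = α ^ k) → ∃ n : ℤ, β = α ^ n)

/-- ZS1 (Zassenhaus: the tubes are disjoint; about 200 lines).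

Proof. `X(γ) = (gx x)⁻¹ ρ(γ) gx x`, a homomorphism.  ZTB with `h = 1` and `h = ρ g`: `nn (X(α) - ε) ≤ 1/10`, `nn (X(gαg⁻¹) - ε') ≤ 1/10`.  `β₀ = gαg⁻¹`, `β_{n+1} = α β_n α⁻¹ β_n⁻¹`.  NNS (4): `nn (X(β₁)-1) ≤ 5/100 = 1/20`, `nn (X(β_{n+1})-1) ≤ (1/2) nn (X(β_n)-1)`, so it tends to `0`.
All `β_n`, `n ≥ 1`, lie in `{hs (ρ ·) ≤ C}` (`ρ(β) = gx X(β) gx⁻¹`), finite by `disc`; so `X(β_n) = 1` for some `n ≥ 1` (otherwise `nn (X(β_n)-1)` would be at least the positive minimum of `nn (X(β)-1)` over the finite set `{β | hs ≤ C, X(β) ≠ 1}`), `ρ β_n = 1`, `β_n = 1` (ZS0 (1)).  Then `β_{n-1}` commutes with `α`: `β_{n-1} ∈ ⟨α⟩` (ZS0 (2)).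
Downwards: if `β_j ∈ ⟨α⟩`, `j ≥ 1`, then `β_{j-1} α⁻¹ β_{j-1}⁻¹ = α⁻¹ β_j ∈ ⟨α⟩`, so `β_{j-1} ∈ ⟨α⟩` by ZS0 (3).  So `gαg⁻¹ = β₀ ∈ ⟨α⟩`, and `g ∈ ⟨α⟩` by ZS0 (3).
Hypotheses: hACT hNNS hZTB hZS0. -/
def StZS1 : Prop := ∀ (Γ : Type) [Group Γ] (ρ : Γ →* SL) (A B : Set ℂ) (α : Γ) (lam : ℂ) (M : ℝ)
  (G : ℂ → ℂ) (m : ℝ) (φ : ℂ → ℂ) (C3 : ℝ), Ann ρ A B α lam M G m φ C3 →
  ∀ x ∈ up, ∀ g : Γ, 12 ≤ TT lam x → 12 ≤ Tg ρ lam g x → ∃ n : ℤ, g = α ^ n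

/-- ZS2 (embedded balls at height `2 cz`; about 150 lines).

Proof. `ε = 10⁻⁷`.  Suppose `γ ≠ 1`, `ch x z ≤ 1+ε`, `ch x (γz) ≤ 1+ε`.  `ch (γx) (γz) = ch x z ≤ 1+ε`; TRI (2): `ch x (γx) ≤ 1 + 5ε ≤ 2`.  `Tg ρ lam γ x = TT lam (γ⁻¹x)`, `ch (γ⁻¹x) x = ch x (γx)`, XPT (5): `TT lam (γ⁻¹ x) ≥ TT lam x/(2(1+5ε)) ≥ 200/4 ≥ 12`.  ZS1: `γ = α^n`, `n ≠ 0`.
`ρ(α^n)` is diagonal with quotient `q = e^{n lam}` (`ρ(α)` has quotient `e^{lam}`), so `TT lam (γx) = TT lam x = 200`, `rd (γx) = e^{n lam} rd x`; `|lam|·200 ≤ 1`; if `|lam|·200 > 1/2`: hypothesis excludes (`|lam| ≤ 1/400`).  `fd lam (rd x) (e^{n lam} rd x)`: by FDM (5) with `rd x = exp (lam y₀)` there is `y` with `exp (lam y) = e^{n lam} rd x`, `fd = |y₀ - y|`, so `lam (y - y₀ - n) = 2πi k`, `y - y₀ = n + k τ`, `τ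 = 2πi/lam`, `Im τ = 2π Re lam/|lam|² ≥ 1`.
`k ≠ 0`: `|n + kτ| ≥ |k| Im τ ≥ 1`; `k = 0`: `|n| ≥ 1`.  So `fd ≥ 1` and CHF (2): `ch x (γx) ≥ 1 + 1/(8·200²) > 1 + 5ε`.  Contradiction.
Hypotheses: hACT hCHI hFDM hXPT hCHF hTRI hZS1. -/
def StZS2 : Prop := ∀ (Γ : Type) [Group Γ] (ρ : Γ →* SL) (A B : Set ℂ) (α : Γ) (lam : ℂ) (M : ℝ)
  (G : ℂ → ℂ) (m : ℝ) (φ : ℂ → ℂ) (C3 : ℝ), Ann ρ A B α lam M G m φ C3 →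
  1 ≤ 2 * Real.pi * lam.re / ‖lam‖ ^ 2 → ‖lam‖ ≤ 1 / 400 →
  (∀ (n : ℤ) (ξ : ℂ), n ≠ 0 → ξ ≠ 0 → 1 ≤ fd lam ξ (Complex.exp (n * lam) * ξ)) ∧
  ∀ x ∈ up, TT lam x = 2 * cz → ∀ γ : Γ, γ ≠ 1 → ∀ z ∈ up, ch x z ≤ 1 + 1 / 10 ^ 7 →
    1 + 1 / 10 ^ 7 < ch x (au ρ γ z)

/-- ENL (the exponent is at least one; about 250 lines).

Proof. Suppose `Σ hs(ρ γ)⁻¹ < ∞`.  (a) For `ξ ∈ LS` and `t > 0`: `x = (ξ,t)` has `sb x ≤ 0` (SB1), so by SB6 (`S = 0`, compact `K ⊆ up`) there is `γ` with `ga (ρ γ) x ∈ K`; put `δ = γ⁻¹`, `k = ga (ρ γ) x`, `x = ga (ρ δ) k`, `o' = ga (ρ δ) oo`: `ch x o' = ch k oo ≤ C_K`.  So `o'.2 ≤ 2C_K t`, `t ≤ 2C_K o'.2`, `|o'.1 - ξ|² ≤ 2 C_K t o'.2`, i.e. `|o'.1 - ξ| ≤ 2C_K o'.2`·const.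
`hs (ρ δ) = 2 ch oo o' = (|o'.1|² + 1 + o'.2²)/o'.2` (CHI, `hs A = tr (A Aᴴ)`, `Xm o' = ρδ ρδᴴ`).  For `|ξ| ≤ R`, `t ≤ 1`: `hs (ρ δ) ≤ C_R/o'.2` and `≥ 1/o'.2 ≥ 1/(2C_K t)`.  So with `r_δ = C'/hs (ρ δ)`: `ξ ∈ closedBall (o'_δ).1 r_δ`, and `hs (ρ δ) → ∞` as `t → 0`.
(b) Let `a ∈ A`, `b ∈ B` (nonempty, open), after a rotation `ξ ↦ e^{iθ}ξ` of coordinates or directly: choose `r > 0` with `ball a r ⊆ A`, `ball b r ⊆ B`, `n = i(b-a)/|b-a|`.  For `|y| < r` the segment from `a + yn` to `b + yn` meets `LS` (connected, `A`, `B` open disjoint).  Let `p(ξ) = Re (conj n (ξ - a))` (1-Lipschitz); so `(-r,r) ⊆ p(LS ∩ closedBall 0 R)` for `R = |a|+|b|+r`.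
(c) For every finite set `F ⊆ Γ`, by (a) with `t` small (so that `hs (ρ δ) > max_F hs`): `p(LS ∩ closedBall 0 R) ⊆ ⋃_{δ ∉ F} [p(o'_δ.1) - r_δ, p(o'_δ.1) + r_δ]`, so `2r ≤ Σ_{δ ∉ F} 2C'/hs (ρ δ)` (measure), which tends to `0` along `F`: contradiction.
Hypotheses: hACT hCHI hSB1 hSB6. -/
def StENL : Prop := ∀ (Γ : Type) [Group Γ] (ρ : Γ →* SL) (A B : Set ℂ), KD ρ A B →
  ¬ Summable (fun γ : Γ => hs (ρ γ) ^ (-(1 : ℝ)))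

end Pool.Agent.Helper88.QT
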