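import Pool.Agent.Helper88.QT.Defs3
import Pool.Agent.Helper88.QT.St2

/-!
# Project QT, helper88, statements 3: counting, averages, oscillation of `1/h`, cost (section 11)

Every module `X` proves `theorem hX (h1 : StA) ... : StX`, the statements listed as hypotheses may be used.  Complete proofs in the docstrings.
`zt t = tanh (t/2)`, `Tp p ζ = (ζ + p)/(1 + conj p ζ)`, `rc f p = f ∘ Tp p`.
-/

set_option autoImplicit false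

open MeasureTheory Matrix Set Topology Filter
open scoped ENNReal ComplexConjugate

namespace Pool.Agent.Helper88.QT

open Pool.Agent.Helper86.QA (KD ActOn FDOn CF ab rX)
open Pool.Agent.Helper85.QT (Ann Cls Cof Mlt Fm th Bnd)
open Pool.Agent.Helper68.QC (nq Bel InvB Intw)
open Pool.Agent.Helper35.PM

/-- HSO (second order Harnack inequality; about 120 lines).

Proof. If `Re F 0 = 0` then St_HK (first item) gives `Re F ≤ 0`, fine.  Otherwise divide by `a = Re F 0` and subtract an imaginary constant: `F 0 = 1` (`deriv` is divided by `a`).  `φ = (F-1)/(F+1)` (`Re F ≥ 0`, so `F + 1 ≠ 0`): `|φ| ≤ 1`, `φ 0 = 0`, so `|φ z| ≤ |z|` (Schwarz; `Complex.norm_le_norm_of_mapsTo_ball` or apply it on smaller discs).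
`ψ z = φ z/z` (`ψ 0 = φ' 0`, `dslope`) is holomorphic with `|ψ| ≤ 1`, so `|ψ z - ψ 0| ≤ 2|z|` (Schwarz lemma for `ψ`: `|ψ z - ψ 0| ≤ |z| |1 - conj (ψ 0) ψ z| ≤ 2|z|`; Mathlib `Complex.dist_le_div_mul_dist_of_mapsTo_ball`).  `F = (1+φ)/(1-φ) = 1 + 2φ + 2φ²/(1-φ)`, `F' 0 = 2φ' 0`.  For `|z| ≤ 1/2`:
`Re F z ≤ 1 + 2 Re (φ' 0 z) + 2|φ z - φ' 0 z| + 2|z|²/(1-|z|) ≤ 1 + |F' 0||z| + 4|z|² + 4|z|²`.
Hypotheses: hHK. -/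
def StHSO : Prop := ∀ F : ℂ → ℂ, DifferentiableOn ℂ F (Metric.ball 0 1) →
  (∀ z ∈ Metric.ball (0 : ℂ) 1, 0 ≤ (F z).re) → ∀ z : ℂ, ‖z‖ ≤ 1 / 2 →
    (F z).re ≤ (F 0).re + ‖deriv F 0‖ * ‖z‖ + 8 * (F 0).re * ‖z‖ ^ 2

/-- AVG (from counting to the entropy; about 280 lines).

Proof. `h = ent (f 0)`, `N T = num (f 0) T`, `R T = classes (f 0) T` (finite, `Facts`).  Fix `0 < η < 1/2` and `z`, `‖z‖ ≤ 1/2`.  Let `T ≥ 1` be large.  For `c ∈ R T` put `v = len (f z) c/len (f 0) c`.  If `len (f 0) c = 0` then `v = 0`.  Otherwise all `tl (f z γ) > 0`, `γ = Quotient.out c` (`Facts`: `tl = 0` iff finite order), and St_HL gives `G` with `Re G = len (f ·) c`;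
`F = G/len (f 0) c` has `Re F ≥ 0`, `Re F 0 = 1`: St_HK gives `v ≤ (1+1/2)/(1-1/2) = 3`.  *Good* classes: `len (f 0) c > (1-η) T` and `GradLE f c (θ T)`: with `Λ` from `GradLE`, `F = Λ/len (f 0) c`, `‖deriv F 0‖ ≤ θ/(1-η)`, HSO: `v ≤ 1 + θ/(1-η) ‖z‖ + 8‖z‖² =: V`.  The other classes are in `R ((1-η)T)` or do not satisfy `GradLE f c (θT)`: their number is
`≤ N((1-η)T) + C e^{(h-δ)T}`.  So `avg (f 0) (f z) T ≤ V + 3 (N((1-η)T) + C e^{(h-δ)T})/N T`.  Along `V'` (the ultrafilter): `log (N T)/T → h`, so eventually `N T ≥ e^{(h-κ)T}`, and `N((1-η)T) ≤ e^{(h+κ)(1-η)T}` eventually (`Facts`), `0 < κ < min (δ, ηh)/4`: the quotient tends to `0`.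
The averages are `≥ 0` and bounded eventually, so they converge along the ultrafilter to some `I ≤ V` (compact interval; `Ultrafilter`/`IsCompact`).  St_JG: `ent (f 0) ≤ I ent (f z)`, so `1/ent (f z) ≤ I/ent (f 0) ≤ V/ent (f 0)`.  Let `η → 0`.
Hypotheses: hHS2 hHL hHK hJG hHSO. -/
def StAVG : Prop := ∀ (Γ : Type) [Group Γ] (f : ℂ → Γ →* SL) (V' : Ultrafilter ℝ) (θ : ℝ),
  (∀ γ i j, DifferentiableOn ℂ (fun z : ℂ => (f z γ : Mat) i j) (Metric.ball 0 1)) →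
  (∀ z ∈ Metric.ball (0 : ℂ) 1, Facts (f z)) → Adapted V' (f 0) → 0 ≤ θ →
  (∃ δ > 0, ∃ C : ℝ, ∀ T : ℝ, 1 ≤ T →
    ({c : ConjClasses Γ | c ∈ classes (f 0) T ∧ ¬ GradLE f c (θ * T)}.ncard : ℝ) ≤
      C * Real.exp ((ent (f 0) - δ) * T)) →
  ∀ z : ℂ, ‖z‖ ≤ 1 / 2 → 1 / ent (f z) ≤ 1 / ent (f 0) * (1 + θ * ‖z‖ + 8 * ‖z‖ ^ 2)

/-- CNT (from the exponential sum to counting; about 150 lines).

Proof. Let `x ∈ classes (f 0) T`, `x ∉ E`, not `GradLE f x (θT)`.  `GradLE` is monotone in the last argument, so `κ len + c W > θT`; `len ≤ T`, `κ ≥ 0`: `c W x > (θ - κ) T ≥ c (s - h + 2δ) T/a`, `a W x > (s - h + 2δ) T`, and `a W x - s len ≥ (s-h+2δ)T - sT = -(h - 2δ) T` (`s ≥ 0`, `len ≤ T`).  The set `S` of these classes is finite and `#S e^{-(h-2δ)T} ≤ Σ_S exp(a W - s len) ≤ C2`, so `#S ≤ C2 e^{(h-2δ)T} ≤ |C2| e^{(h-δ)T}`.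
The classes in `E`: at most `C1 T ≤ C e^{(h-δ)T}` (`h - δ > 0`; `T ≤ e^{(h-δ)T}/(h-δ)`). -/
def StCNT : Prop := ∀ (Γ : Type) [Group Γ] (f : ℂ → Γ →* SL) (E : Set (ConjClasses Γ))
  (W : ConjClasses Γ → ℝ) (κ c a s h δ θ C1 C2 : ℝ),
  (∀ T : ℝ, (classes (f 0) T).Finite) → 0 < a → 0 < c → 0 ≤ κ → 0 ≤ s → 0 < δ → δ < h →
  κ + c * (s - h + 2 * δ) / a ≤ θ →
  (∀ T : ℝ, 1 ≤ T → ({x : ConjClasses Γ | x ∈ classes (f 0) T ∧ x ∈ E}.ncard : ℝ) ≤ C1 * T) →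
  (∀ x ∉ E, GradLE f x (κ * len (f 0) x + c * W x)) →
  (∀ S : Finset (ConjClasses Γ), (∀ x ∈ S, x ∉ E) →
    ∑ x ∈ S, Real.exp (a * W x - s * len (f 0) x) ≤ C2) →
  ∃ C' : ℝ, ∀ T : ℝ, 1 ≤ T →
    ({x : ConjClasses Γ | x ∈ classes (f 0) T ∧ ¬ GradLE f x (θ * T)}.ncard : ℝ) ≤
      C' * Real.exp ((h - δ) * T)

/-- CYC (classes of powers; about 100 lines).

Proof. `len ρ (mk (α^n)) = tl (ρ α ^ n) = |n| tl (ρ α)` (St_LN, St_HS2: eigenvalues of powers; `tl` of the inverse).  If it is `≤ T` then `|n| ≤ T/tl (ρ α)`, so there are at most `2T/tl (ρ α) + 1 ≤ (2/tl + 1) T` classes.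
Hypotheses: hHS2 hLN. -/
def StCYC : Prop := ∀ (Γ : Type) [Group Γ] (ρ : Γ →* SL) (α : Γ), 0 < tl (ρ α) → ∃ C1 : ℝ,
  ∀ T : ℝ, 1 ≤ T → ({x : ConjClasses Γ | x ∈ classes ρ T ∧
    ∃ n : ℤ, x = ConjClasses.mk (α ^ n)}.ncard : ℝ) ≤ C1 * T

/-- OSC (oscillation; about 250 lines).

Proof. `r₀ = tanh 1`.  *Case 1*: some `p`, `‖p‖ ≤ r₀`, has `2 u p - 1 ≤ ε`.  Let `G` belong to `p`, `‖z‖ ≤ r₀`.  `F ζ = 2 G (Tp p ζ) - 1` is holomorphic on the disc, `Re F ≥ 2u - 1 ≥ 0`, `Re F 0 = 2 u p - 1 ≤ ε`.  `ζ = (z-p)/(1 - conj p z)`, `Tp p ζ = z`, `‖ζ‖ ≤ (‖z‖+‖p‖)/(1+‖z‖‖p‖) ≤ 2r₀/(1+r₀²) = tanh 2`; St_HK: `2 u z - 1 ≤ Re F ζ ≤ (1+‖ζ‖)/(1-‖ζ‖) ε ≤ e⁴ ε`.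
So `1/2 ≤ u z ≤ 1/2 + 28 ε` for all `‖z‖ ≤ r₀`.  *Case 2*: all `p`, `‖p‖ ≤ r₀`, satisfy the second alternative.  Let `z = tanh (d/2) e` with `‖e‖ = 1`, `0 ≤ d ≤ 2`.  For `n ≥ 2` put `p_k = tanh (k d/(2n)) e`, `τ = tanh (d/(2n)) ≤ 1/n ≤ 1/2`: `p_{k+1} = Tp p_k (τ e)`, `p_k = Tp p_{k+1} (-τ e)` (addition formula of `tanh`, `conj e e = 1`).
So `u p_{k±1} ≤ u p_k (1 + θ/n + 8/n²)`, and `u z ≤ u 0 (1+θ/n+8/n²)^n`, `u 0 ≤ u z (..)^n`; `n → ∞` (`(1 + x/n)^n ≤ e^x`: `(..)^n ≤ exp (θ + 8/n)`): `u z ≤ e^θ u 0`, `u 0 ≤ e^θ u z`.  `u ≤ 1`, `e^θ - 1 ≤ 2θ`: `|u z - u 0| ≤ 2θ`.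
Hypotheses: hHK. -/
def StOSC : Prop := ∀ (u : ℂ → ℝ) (ε θ : ℝ), 0 ≤ ε → 0 ≤ θ → θ ≤ 1 →
  (∀ z ∈ Metric.ball (0 : ℂ) 1, 1 / 2 ≤ u z) → (∀ z : ℂ, ‖z‖ ≤ Real.tanh 1 → u z ≤ 1) →
  (∀ p ∈ Metric.ball (0 : ℂ) 1, ∃ G : ℂ → ℂ, DifferentiableOn ℂ G (Metric.ball 0 1) ∧
    (∀ z ∈ Metric.ball (0 : ℂ) 1, u z ≤ (G z).re) ∧ (G p).re = u p) →
  (∀ p : ℂ, ‖p‖ ≤ Real.tanh 1 → 2 * u p - 1 ≤ ε ∨
    ∀ ζ : ℂ, ‖ζ‖ ≤ 1 / 2 → u (Tp p ζ) ≤ u p * (1 + θ * ‖ζ‖ + 8 * ‖ζ‖ ^ 2)) →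
  ∀ z : ℂ, ‖z‖ ≤ Real.tanh 1 → |u z - u 0| ≤ 28 * ε + 2 * θ

/-- CS1 (cost of one step; about 150 lines; compare Pool/Agent/Helper24/PM/M_F1.lean).

Proof. `u z = 1/ent (f z)`, `j p z = J (U (f p)) (f p) (f z)`, `Pot u j` by St_PO (St_QF).  `u' = u/(2c₀)`: `Pot u' j` as well: `u' ≥ 1/2`, and with `G` replaced by `G/(2c₀)` (`Re G z = j p z u z`).  St_GE1 for `u'` and St_GE2 with `η = 4ε`: `2 - 1/u' = 2(u - c₀)/u ≤ 4 (u - c₀) ≤ 4ε` (`u ≥ 1/2`), and St_CS with `k = 1` give `q₁`, `∫ q₁ ≤ (2ε(L+2))^{1/2} L^{1/2}`; path `t ↦ f (zt t)` as in M_F1.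
Hypotheses: hQF hPO hGE1 hGE2 hCS. -/
def StCS1 : Prop := ∀ g : ℕ, 2 ≤ g → ∀ U : (SurfaceGroup g →* SL) → Ultrafilter ℝ,
  (∀ ρ, IsQF ρ → Adapted (U ρ) ρ) → ∀ f : ℂ → SurfaceGroup g →* SL, HolDisc f →
  ∀ c₀ ε L : ℝ, 0 ≤ L → 0 ≤ ε → 1 / 2 ≤ c₀ →
    (∀ z ∈ Metric.ball (0 : ℂ) 1, c₀ ≤ 1 / ent (f z)) →
    (∀ t ∈ Icc 0 L, 1 / ent (f (zt t)) ≤ c₀ + ε) →
    pressureDist U (f 0) (f (zt L)) ≤ ENNReal.ofReal (Real.sqrt (2 * ε * L * (L + 2)))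

/-- CHC (sum of the costs; about 250 lines).

Proof. `C₂ = 41 √(32 C₁)`.  `L = 0`: `zt 0 = 0`, distance `0` (`PressureLE.conj`).  Let `n = ⌈L⌉ ≥ 1`, `δ = L/n ≤ 1`, `t_j = jδ`, `r₀ = tanh 1`, `ε_j = C₁ exp(-(K-t_j)/10)`, `f_j ζ = f (Tp (zt t_j) (r₀ ζ))`: a `HolDisc` (composition with a holomorphic map of the disc into the disc), `f_j 0 = f (zt t_j)`.  `zt t_{j+1} = Tp (zt t_j) (zt δ)` (addition formula), and `zt δ = r₀ zt L_j`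
with `L_j ≥ 0`, `tanh (L_j/2) = tanh (δ/2)/tanh 1 ≤ tanh (1/2)/tanh 1 ≤ 0.61 ≤ tanh 1`, so `L_j ≤ 2`.  So `f (zt t_{j+1}) = f_j (zt L_j)`.  By hypothesis (`t = t_j`) `|1/ent (f_j ζ) - u_j| ≤ ε_j` for `‖ζ‖ < 1`, `u_j = 1/ent (f (zt t_j))`.  `c₀ = max (1/2) (u_j - ε_j)` is a lower bound (`ent ≤ 2`), and `1/ent (f_j ζ) ≤ c₀ + 2ε_j`.
CS1 with `ε = 2ε_j`, `L_j ≤ 2`: `pressureDist (f (zt t_j)) (f (zt t_{j+1})) ≤ √(4ε_j · 2 · 4) = √(32 ε_j)`.  Triangle inequality (`PressureLE.trans`, infima): the total is `≤ Σ_{j<n} √(32C₁) exp (-(K-t_j)/20)`, `K - t_j ≥ L - t_j = (n-j)δ`; if `L ≥ 1` then `δ ≥ 1/2`, `Σ_{i≥1} e^{-i/40} ≤ 40`; if `L < 1` there is one term.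
Hypotheses: hQF hCS1. -/
def StCHC : Prop := ∀ C₁ : ℝ, 0 ≤ C₁ → ∀ g : ℕ, 2 ≤ g →
  ∀ U : (SurfaceGroup g →* SL) → Ultrafilter ℝ, (∀ ρ, IsQF ρ → Adapted (U ρ) ρ) →
  ∀ f : ℂ → SurfaceGroup g →* SL, HolDisc f → ∀ K L : ℝ, 0 ≤ L → L ≤ K →
    (∀ t ∈ Icc 0 L, ∀ ζ : ℂ, ‖ζ‖ ≤ Real.tanh 1 →
      |1 / ent (rc f (zt t) ζ) - 1 / ent (f (zt t))| ≤ C₁ * Real.exp (-(K - t) / 10)) →
    pressureDist U (f 0) (f (zt L)) ≤ ENNReal.ofReal (41 * Real.sqrt (32 * C₁))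

/-- FVG (first variation and gradient of the length; about 250 lines).

Proof. `T ξ = (ξ-a)/(ξ-b)`.  By `Intw (r γ) B_s w_s`, `w_s = nq (s μ)`, `B_s = C' f s γ C'⁻¹`, and SPH (`k = ‖s‖ < 1`): `ν = muT a b μ` (`Bel 1 ν`, `muT a b (s μ) = s muT a b μ`), `nq (s ν) (T ξ) = (w_s ξ - w_s a)/(w_s ξ - w_s b)` for `ξ ≠ b`.  The points `w_s a ≠ w_s b` are fixed by `B_s` (`Intw`), so in the coordinate `crd (w_s a) (w_s b)` it is multiplication by a number `q_s`, and `q_s + 2 + q_s⁻¹ = (tr B_s)² = (tr (f s γ))²`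
(eigenvalues `den B_s (w_s a)`, `den B_s (w_s b)`; `q_s` is their quotient `den B_s (w_s b)/den B_s (w_s a)`, as in StMTR).  With `ξ₀`, `T ξ₀ = 1/2`... choose `η₀ = 1`: `T ξ = 1` has no solution, so use StTOR's argument: for all `η ≠ 1`, `e^l η ≠ 1`: `nq (sν) (e^l η) = q_s nq (sν) η`; both sides are continuous in `η`, so it holds for `η = 1` too: `q_s = nq (s ν) (e^l)` (`nq 1 = 1`).
InvL l ν (as in StTOR, from `InvB (r γ) μ`).  StFVM: `s ↦ q_s` has at `s = 0` the derivative `e^l κ`, `κ = π⁻¹ ∫_{ann l} ν/η²`, and by the change of variables `η = T ξ`, `T' = (a-b)/(ξ-b)²`: `κ = π⁻¹ ∫_{Fm a b l} μ th a b` (`muT a b μ (T ξ) = μ ξ conj (T'^{-1})/(T'^{-1})`.., `ν(T ξ)|T' ξ|²/(T ξ)² = μ ξ (T' ξ)²/(T ξ)² = μ ξ (a-b)²/((ξ-a)²(ξ-b)²)`).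
`|q_0| = e^{Re l} > 1`, so `|q_s| > 1` for small `s`, and `tl (f s γ) = log|q_s|` (St_HS2: the eigenvalues of `f s γ` have squares `q_s^{±1}`).  St_HL: `G` holomorphic with `Re G = tl (f · γ)`.  For small `s`: `Re G s = log|q_s| = Re l + Re (κ s) + o(s)` and `= Re G 0 + Re (G' 0 s) + o(s)`; so `Re ((G' 0 - κ) s) = o(s)` for all directions, `G' 0 = κ`.
Hypotheses: hHS2 hHL, and SPH, Stokes, NID, EX, FVM, MTR, TOR of Helper68.QC as proved in Pool/Agent/Helper68/QCA/Main.lean or as hypotheses. -/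
def StFVG : Prop := ∀ (Γ : Type) [Group Γ] (f : ℂ → Γ →* SL) (r : Γ →* SL) (μ : ℂ → ℂ) (γ : Γ)
  (a b l : ℂ),
  (∀ i j, DifferentiableOn ℂ (fun z : ℂ => (f z γ : Mat) i j) (Metric.ball 0 1)) →
  (∀ z ∈ Metric.ball (0 : ℂ) 1, 0 < tl (f z γ)) → Bel 1 μ → InvB (r γ) μ →
  (∀ s : ℂ, ‖s‖ < 1 → ∃ C' : SL, Intw (r γ) (C' * f s γ * C'⁻¹) (nq (fun z => s * μ z))) →
  Mlt (r γ) a b l → 0 < l.re →
  ∃ Λ : ℂ → ℂ, DifferentiableOn ℂ Λ (Metric.ball 0 1) ∧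
    (∀ z ∈ Metric.ball (0 : ℂ) 1, (Λ z).re = tl (f z γ)) ∧
    deriv Λ 0 = (Real.pi : ℂ)⁻¹ * ∫ ξ in Fm a b l, μ ξ * th a b ξ

end Pool.Agent.Helper88.QT
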